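import Mathlib

namespace Pool.Agent.Helper42.QD

/-- The group `GL_2(D)`. -/
abbrev G2 (D : Type) [DivisionRing D] : Type := (Matrix (Fin 2) (Fin 2) D)ˣ

section

variable {D : Type} [DivisionRing D]

/-- The matrix `(1 b; 0 1)`. -/
def nn (b : D) : G2 D where
  val := !![1, b; 0, 1]
  inv := !![1, -b; 0, 1]
  val_inv := by
    refine Matrix.ext fun i j => ?_
    fin_cases i <;> fin_cases j <;> simp [Matrix.mul_apply, Fin.sum_univ_two]
  inv_val := by
    refine Matrix.ext fun i j => ?_
    fin_cases i <;> fin_cases j <;> simp [Matrix.mul_apply, Fin.sum_univ_two]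

end

/-- The span of all `rho (nn x) v - f x • v`. -/
def tsp {D : Type} [DivisionRing D] {V : Type} [AddCommGroup V] [Module ℂ V]
    (rho : Representation ℂ (G2 D) V) (f : D → ℂ) : Submodule ℂ V :=
  Submodule.span ℂ {w | ∃ (x : D) (v : V), w = rho (nn x) v - f x • v}

end Pool.Agent.Helper42.QD
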