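import Pool.Agent.Helper42.QD.Base

namespace Pool.Agent.Helper42.QD

/-- A division ring with a discrete valuation `v` (`v 0` is junk), residue map `r` (junk outside the
valuation ring), a uniformizer `T`, the automorphism `sg` of the residue field induced by conjugation
with `T`, and an additive character `psi` which is a class function, trivial on the maximal ideal and
non-trivial on the valuation ring. -/
structure VD (D k : Type) [DivisionRing D] [Field k] where
  v : D → ℤ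
  r : D → k
  T : D
  sg : k ≃+* k
  psi : AddChar D ℂ
  v_mul : ∀ x y, x ≠ 0 → y ≠ 0 → v (x * y) = v x + v y
  v_add : ∀ x y, x ≠ 0 → y ≠ 0 → x + y ≠ 0 → min (v x) (v y) ≤ v (x + y)
  T_ne : T ≠ 0
  v_T : v T = 1
  r_add : ∀ x y, (x = 0 ∨ 0 ≤ v x) → (y = 0 ∨ 0 ≤ v y) → r (x + y) = r x + r y
  r_mul : ∀ x y, (x = 0 ∨ 0 ≤ v x) → (y = 0 ∨ 0 ≤ v y) → r (x * y) = r x * r y
  r_one : r 1 = 1
  r_zero : ∀ x, (x = 0 ∨ 0 ≤ v x) → (r x = 0 ↔ (x = 0 ∨ 1 ≤ v x))
  r_surj : ∀ a, ∃ x, (x = 0 ∨ 0 ≤ v x) ∧ r x = a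
  r_T : ∀ x, (x = 0 ∨ 0 ≤ v x) → r (T * x * T⁻¹) = sg (r x)
  psi_comm : ∀ x y, psi (x * y) = psi (y * x)
  psi_P : ∀ x, (x = 0 ∨ 1 ≤ v x) → psi x = 1
  psi_O : ∃ x, (x = 0 ∨ 0 ≤ v x) ∧ psi x ≠ 1

section
variable {D k : Type} [DivisionRing D] [Field k]

/-- `x ∈ P ^ m`. -/
def VD.P (c : VD D k) (m : ℤ) (x : D) : Prop := x = 0 ∨ m ≤ c.v x

/-- The matrix `(1 0; y 1)`. -/
def nm (y : D) : G2 D where
  val := !![1, 0; y, 1]
  inv := !![1, 0; -y, 1]
  val_inv := by
    refine Matrix.ext fun i j => ?_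
    fin_cases i <;> fin_cases j <;> simp [Matrix.mul_apply, Fin.sum_univ_two]
  inv_val := by
    refine Matrix.ext fun i j => ?_
    fin_cases i <;> fin_cases j <;> simp [Matrix.mul_apply, Fin.sum_univ_two]

/-- The matrix `(0 1; 1 0)`. -/
def ww (D : Type) [DivisionRing D] : G2 D where
  val := !![0, 1; 1, 0]
  inv := !![0, 1; 1, 0]
  val_inv := by
    refine Matrix.ext fun i j => ?_
    fin_cases i <;> fin_cases j <;> simp [Matrix.mul_apply, Fin.sum_univ_two]
  inv_val := by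
    refine Matrix.ext fun i j => ?_
    fin_cases i <;> fin_cases j <;> simp [Matrix.mul_apply, Fin.sum_univ_two]

open Classical in
/-- The matrix `(a 0; 0 d)` (and `1` if `a` or `d` is zero). -/
noncomputable def dg (a d : D) : G2 D :=
  if h : a ≠ 0 ∧ d ≠ 0 then
    { val := !![a, 0; 0, d]
      inv := !![a⁻¹, 0; 0, d⁻¹]
      val_inv := by
        refine Matrix.ext fun i j => ?_
        fin_cases i <;> fin_cases j <;> simp [Matrix.mul_apply, Fin.sum_univ_two, h.1, h.2]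
      inv_val := by
        refine Matrix.ext fun i j => ?_
        fin_cases i <;> fin_cases j <;> simp [Matrix.mul_apply, Fin.sum_univ_two, h.1, h.2] }
  else 1

/-- `g ∈ 1 + P ^ m M_2(O)`. -/
def KK (c : VD D k) (m : ℤ) (g : G2 D) : Prop := ∀ i j, c.P m ((g.val - 1) i j)

/-- The Iwahori type group `1 + (P^h P^h; P^(h+1) P^h)`. -/
def KI (c : VD D k) (h : ℤ) (g : G2 D) : Prop :=
  c.P h ((g.val - 1) 0 0) ∧ c.P h ((g.val - 1) 0 1) ∧ c.P (h + 1) ((g.val - 1) 1 0) ∧
    c.P h ((g.val - 1) 1 1)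

/-- `g ∈ GL_2(O)`. -/
def KO (c : VD D k) (g : G2 D) : Prop :=
  (∀ i j, c.P 0 (g.val i j)) ∧ ∀ i j, c.P 0 ((g⁻¹).val i j)

/-- Membership in the space of the Kirillov model. -/
def IsS (c : VD D k) (f : D → ℂ) : Prop :=
  f 0 = 0 ∧ ∃ m : ℕ, 0 < m ∧ (∀ x u, c.P m u → f (x * (1 + u)) = f x) ∧
    ∀ x, f x ≠ 0 → -(m : ℤ) ≤ c.v x ∧ c.v x ≤ m

/-- The space of the Kirillov model: locally constant functions with compact support on `D - 0`,
extended by zero to `D`. -/
def Sp (c : VD D k) : Submodule ℂ (D → ℂ) where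
  carrier := {f | IsS c f}
  add_mem' := by
    rintro f g ⟨hf0, m, hm, h1, h2⟩ ⟨hg0, n, hn, h3, h4⟩
    refine ⟨by simp [hf0, hg0], m + n, by omega, fun x u hu => ?_, fun x hx => ?_⟩
    · have hm' : c.P m u := by
        rcases hu with h | h
        · exact Or.inl h
        · exact Or.inr (by push_cast at h; omega)
      have hn' : c.P n u := by
        rcases hu with h | h
        · exact Or.inl h
        · exact Or.inr (by push_cast at h; omega)
      simp [h1 x u hm', h3 x u hn']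
    · by_cases h : f x = 0
      · have : g x ≠ 0 := by
          intro h'
          exact hx (by simp [h, h'])
        have := h4 x this
        push_cast
        omega
      · have := h2 x h
        push_cast
        omega
  zero_mem' := ⟨rfl, 1, one_pos, fun _ _ _ => rfl, fun _ hx => absurd rfl hx⟩
  smul_mem' := by
    rintro a f ⟨hf0, m, hm, h1, h2⟩
    refine ⟨by simp [hf0], m, hm, fun x u hu => by simp [h1 x u hu], fun x hx => h2 x ?_⟩
    intro h
    exact hx (by simp [h])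

/-- A Kirillov model with one-dimensional twisted Jacquet module (central character `om`). -/
structure KM (c : VD D k) where
  om : D →*₀ ℂ
  rho : Representation ℂ (G2 D) (Sp c)
  rn : ∀ (b : D) (f : Sp c) (x : D), (rho (nn b) f).1 x = c.psi (x * b) * f.1 x
  rt : ∀ (a d : D), a ≠ 0 → d ≠ 0 → ∀ (f : Sp c) (x : D),
    (rho (dg a d) f).1 x = om d * f.1 (d⁻¹ * x * a)
  sm : ∀ f : Sp c, ∃ m : ℕ, 0 < m ∧ ∀ g, KK c m g → rho g f = f

/-- `f` is fixed by `1 + P ^ m M_2(O)`. -/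
def Fix {c : VD D k} (R : KM c) (m : ℤ) (f : Sp c) : Prop := ∀ g, KK c m g → R.rho g f = f

/-- `f` is an eigenvector of `1 + P ^ h M_2(O)` with character `1 + X ↦ psi (tr (M X))`. -/
def Ty {c : VD D k} (R : KM c) (h : ℤ) (M : Matrix (Fin 2) (Fin 2) D) (f : Sp c) : Prop :=
  ∀ g, KK c h g → R.rho g f = c.psi ((M * (g.val - 1)).trace) • f

/-- No Kirillov model has non-zero vectors fixed by `1 + P ^ m M_2(O)`. -/
def noK (c : VD D k) (m : ℤ) : Prop := ∀ (R : KM c) (f : Sp c), Fix R m f → f = 0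

/-- No Kirillov model has non-zero vectors fixed by `1 + (P^h P^h; P^(h+1) P^h)`. -/
def noI (c : VD D k) (h : ℤ) : Prop :=
  ∀ (R : KM c) (f : Sp c), (∀ g, KI c h g → R.rho g f = f) → f = 0

/-- Characters of `GL_2(D)` with prescribed restriction to `1 + P ^ h M_2(O)`. -/
def TWC (c : VD D k) : Prop :=
  ∀ (h : ℕ) (e : D), 0 < h → c.P (-h) e → (∀ y : D, y ≠ 0 → c.P (1 - h) (y * e * y⁻¹ - e)) →
    ∃ lam : G2 D →* ℂˣ, (∀ b, lam (nn b) = 1) ∧
      ∀ g, KK c h g → (lam g : ℂ) = c.psi (e * ((g.val - 1) 0 0 + (g.val - 1) 1 1))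

/-- `oh` describes the character `om` on `1 + P ^ h`. -/
def IsOh {c : VD D k} (R : KM c) (h : ℤ) (oh : D) : Prop :=
  c.P (-h) oh ∧ (∀ u, c.P h u → R.om (1 + u) = c.psi (oh * u)) ∧
    ∀ y, y ≠ 0 → c.P (1 - h) (y * oh * y⁻¹ - oh)

open Classical in
/-- The indicator function of `x + P ^ n`. -/
noncomputable def ind (c : VD D k) (x : D) (n : ℤ) : D → ℂ := fun y => if c.P n (y - x) then 1 else 0

open Classical in
/-- The restriction of `f` to `x + P ^ n`. -/
noncomputable def cut (c : VD D k) (x : D) (n : ℤ) (f : D → ℂ) : D → ℂ :=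
  fun y => if c.P n (y - x) then f y else 0

end

end Pool.Agent.Helper42.QD
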