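import Pool.Agent.Helper42.QD.Defs

namespace Pool.Agent.Helper42.QD

set_option linter.unusedSimpArgs false

variable {D k : Type} [DivisionRing D] [Field k]

namespace VD

variable (c : VD D k)

theorem P_zero (m : ℤ) : c.P m 0 := Or.inl rfl

variable {c}

theorem P_iff {m : ℤ} {x : D} (hx : x ≠ 0) : c.P m x ↔ m ≤ c.v x :=
  ⟨fun h => h.resolve_left hx, Or.inr⟩

theorem P_mono {m n : ℤ} {x : D} (h : m ≤ n) (hx : c.P n x) : c.P m x := by
  rcases hx with h0 | h0
  · exact Or.inl h0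
  · exact Or.inr (le_trans h h0)

theorem v_one : c.v 1 = 0 := by
  have := c.v_mul 1 1 one_ne_zero one_ne_zero
  rw [mul_one] at this
  omega

theorem v_neg_one : c.v (-1) = 0 := by
  have := c.v_mul (-1) (-1) (by simp) (by simp)
  rw [neg_mul_neg, mul_one, v_one] at this
  omega

theorem v_neg (x : D) : c.v (-x) = c.v x := by
  by_cases h : x = 0
  · rw [h, neg_zero]
  · have := c.v_mul (-1) x (by simp) h
    rw [v_neg_one, neg_one_mul] at this
    omega

theorem v_inv {x : D} (hx : x ≠ 0) : c.v x⁻¹ = -c.v x := by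
  have := c.v_mul x x⁻¹ hx (inv_ne_zero hx)
  rw [mul_inv_cancel₀ hx, v_one] at this
  omega

theorem P_neg {m : ℤ} {x : D} (hx : c.P m x) : c.P m (-x) := by
  rcases hx with h | h
  · exact Or.inl (by rw [h, neg_zero])
  · exact Or.inr (by rw [v_neg]; exact h)

theorem P_add {m : ℤ} {x y : D} (hx : c.P m x) (hy : c.P m y) : c.P m (x + y) := by
  rcases hx with h | h
  · rw [h, zero_add]; exact hy
  rcases hy with h' | h'
  · rw [h', add_zero]; exact Or.inr h
  by_cases h0 : x = 0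
  · rw [h0, zero_add]; exact Or.inr h'
  by_cases h1 : y = 0
  · rw [h1, add_zero]; exact Or.inr h
  by_cases h2 : x + y = 0
  · exact Or.inl h2
  · exact Or.inr (le_trans (le_min h h') (c.v_add x y h0 h1 h2))

theorem P_sub {m : ℤ} {x y : D} (hx : c.P m x) (hy : c.P m y) : c.P m (x - y) := by
  rw [sub_eq_add_neg]
  exact P_add hx (P_neg hy)

theorem P_sub_comm {m : ℤ} {x y : D} (h : c.P m (x - y)) : c.P m (y - x) := by
  rw [← neg_sub]
  exact P_neg h

theorem P_mul {m n : ℤ} {x y : D} (hx : c.P m x) (hy : c.P n y) : c.P (m + n) (x * y) := by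
  by_cases h0 : x = 0
  · exact Or.inl (by rw [h0, zero_mul])
  by_cases h1 : y = 0
  · exact Or.inl (by rw [h1, mul_zero])
  rw [P_iff h0] at hx
  rw [P_iff h1] at hy
  rw [P_iff (mul_ne_zero h0 h1), c.v_mul x y h0 h1]
  omega

theorem P_mul' {m n l : ℤ} {x y : D} (hx : c.P m x) (hy : c.P n y) (h : l ≤ m + n) :
    c.P l (x * y) := P_mono h (P_mul hx hy)

theorem P_self {x : D} : c.P (c.v x) x := Or.inr le_rfl

theorem P_one : c.P 0 (1 : D) := Or.inr (by rw [v_one])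

theorem P_inv {x : D} (hx : x ≠ 0) : c.P (-c.v x) x⁻¹ := Or.inr (by rw [v_inv hx])

theorem P_of_mul_left {m : ℤ} {x y : D} (hx : x ≠ 0) (h : c.P m (x * y)) : c.P (m - c.v x) y := by
  have := P_mul (P_inv (c := c) hx) h
  rw [inv_mul_cancel_left₀ hx] at this
  exact P_mono (by omega) this

theorem P_of_mul_right {m : ℤ} {x y : D} (hy : y ≠ 0) (h : c.P m (x * y)) :
    c.P (m - c.v y) x := by
  have := P_mul h (P_inv (c := c) hy)
  rw [mul_inv_cancel_right₀ hy] at this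
  exact P_mono (by omega) this

theorem P_conj {m : ℤ} {x y : D} (hx : x ≠ 0) (h : c.P m y) : c.P m (x * y * x⁻¹) := by
  have := P_mul (P_mul (P_self (c := c) (x := x)) h) (P_inv (c := c) hx)
  exact P_mono (by omega) this

theorem P_conj' {m : ℤ} {x y : D} (hx : x ≠ 0) (h : c.P m y) : c.P m (x⁻¹ * y * x) := by
  have := P_mul (P_mul (P_inv (c := c) hx) h) (P_self (c := c) (x := x))
  exact P_mono (by omega) this

theorem P_pow_not {m : ℤ} {x : D} (hx : x ≠ 0) (h : c.v x < m) : ¬ c.P m x := by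
  rw [P_iff hx]
  omega

theorem ne_of_not_P {m : ℤ} {x : D} (h : ¬ c.P m x) : x ≠ 0 := fun h0 => h (Or.inl h0)

theorem lt_of_not_P {m : ℤ} {x : D} (h : ¬ c.P m x) : c.v x < m := by
  by_contra h'
  exact h (Or.inr (by omega))

theorem v_add_eq {x y : D} (hx : x ≠ 0) (hy : c.P (c.v x + 1) y) :
    x + y ≠ 0 ∧ c.v (x + y) = c.v x := by
  have h1 : x + y ≠ 0 := by
    intro h
    have : c.P (c.v x + 1) x := by
      have h2 : x = -y := eq_neg_of_add_eq_zero_left h
      rw [h2] at hx ⊢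
      rw [v_neg]
      have h3 : c.P (c.v (-y) + 1) y := hy.imp id fun h4 => by rw [h2] at h4; exact h4
      rw [v_neg] at h3
      exact P_neg h3
    rw [P_iff hx] at this
    omega
  refine ⟨h1, ?_⟩
  have h2 : c.P (c.v x) (x + y) := P_add P_self (P_mono (by omega) hy)
  rw [P_iff h1] at h2
  by_contra h3
  have h4 : c.P (c.v x + 1) (x + y) := Or.inr (by omega)
  have h5 : c.P (c.v x + 1) x := by
    have := P_sub h4 hy
    rwa [add_sub_cancel_right] at this
  rw [P_iff hx] at h5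
  omega

/-- Congruent elements have the same valuation. -/
theorem v_congr {x y : D} (hx : x ≠ 0) (h : c.P (c.v x + 1) (y - x)) : y ≠ 0 ∧ c.v y = c.v x := by
  have := v_add_eq hx h
  rwa [add_sub_cancel] at this

theorem one_add {u : D} (hu : c.P 1 u) : 1 + u ≠ 0 ∧ c.v (1 + u) = 0 := by
  have := v_add_eq (c := c) (x := 1) (y := u) one_ne_zero (by rw [v_one]; exact P_mono (by omega) hu)
  rwa [v_one] at this

theorem one_add_inv {m : ℤ} (hm : 1 ≤ m) {u : D} (hu : c.P m u) : c.P m ((1 + u)⁻¹ - 1) := by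
  have h := one_add (P_mono hm hu)
  have h1 : (1 + u)⁻¹ - 1 = (1 + u)⁻¹ * (-u) := by
    have : (1 + u)⁻¹ * (1 + u) = 1 := inv_mul_cancel₀ h.1
    rw [mul_add, mul_one] at this
    rw [mul_neg, eq_neg_iff_add_eq_zero, sub_add_eq_add_sub, this, sub_self]
  rw [h1]
  have h2 : c.P 0 (1 + u)⁻¹ := Or.inr (by rw [v_inv h.1, h.2]; simp)
  exact P_mul' h2 (P_neg hu) (by omega)

theorem r_zero' {x : D} (hx : c.P 0 x) : c.r x = 0 ↔ c.P 1 x := c.r_zero x hx

theorem r_neg {x : D} (hx : c.P 0 x) : c.r (-x) = -c.r x := by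
  have h1 := c.r_add x (-x) hx (P_neg hx)
  rw [add_neg_cancel] at h1
  have h2 : c.r 0 = 0 := (c.r_zero 0 (Or.inl rfl)).2 (Or.inl rfl)
  rw [h2] at h1
  exact (neg_eq_of_add_eq_zero_right h1.symm).symm

theorem r_sub {x y : D} (hx : c.P 0 x) (hy : c.P 0 y) : c.r (x - y) = c.r x - c.r y := by
  rw [sub_eq_add_neg, c.r_add x (-y) hx (P_neg hy), r_neg hy, sub_eq_add_neg]

theorem r_congr {x y : D} (hx : c.P 0 x) (hy : c.P 0 y) : c.r x = c.r y ↔ c.P 1 (x - y) := by
  rw [← r_zero' (P_sub hx hy), r_sub hx hy, sub_eq_zero]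

theorem r_inv {x : D} (hx : x ≠ 0) (h : c.v x = 0) : c.r x⁻¹ = (c.r x)⁻¹ := by
  have h1 : c.P 0 x := Or.inr h.ge
  have h2 : c.P 0 x⁻¹ := Or.inr (by rw [v_inv hx, h]; simp)
  have h3 := c.r_mul x x⁻¹ h1 h2
  rw [mul_inv_cancel₀ hx, c.r_one] at h3
  exact eq_inv_of_mul_eq_one_right h3.symm

theorem unit_lift (a : k) (ha : a ≠ 0) : ∃ x : D, x ≠ 0 ∧ c.v x = 0 ∧ c.r x = a := by
  obtain ⟨x, hx, hxa⟩ := c.r_surj a
  have h1 : ¬ c.P 1 x := fun h => ha (by rw [← hxa]; exact (r_zero' hx).2 h)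
  have h2 : x ≠ 0 := ne_of_not_P h1
  have h3 := lt_of_not_P h1
  rcases hx with h | h
  · exact absurd h h2
  · exact ⟨x, h2, by omega, hxa⟩

theorem r_ne_zero {x : D} (hx : x ≠ 0) (h : c.v x = 0) : c.r x ≠ 0 := by
  intro h0
  have := (r_zero' (c := c) (Or.inr h.ge)).1 h0
  rw [P_iff hx] at this
  omega

theorem v_T_zpow (n : ℤ) : c.v (c.T ^ n) = n := by
  have h : ∀ m : ℕ, c.v (c.T ^ m) = m := by
    intro m
    induction m with
    | zero => rw [pow_zero, v_one]; rfl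
    | succ m ih =>
      rw [pow_succ, c.v_mul _ _ (pow_ne_zero _ c.T_ne) c.T_ne, ih, c.v_T]
      push_cast
      ring
  obtain ⟨m, rfl | rfl⟩ := n.eq_nat_or_neg
  · rw [zpow_natCast, h]
  · rw [zpow_neg, zpow_natCast, v_inv (pow_ne_zero _ c.T_ne), h]

theorem T_zpow_ne (n : ℤ) : c.T ^ n ≠ 0 := zpow_ne_zero _ c.T_ne

theorem r_T_zpow (n : ℤ) {x : D} (hx : c.P 0 x) : c.r (c.T ^ n * x * (c.T ^ n)⁻¹) = (c.sg ^ n) (c.r x) := by
  have h : ∀ (m : ℕ) (x : D), c.P 0 x → c.r (c.T ^ m * x * (c.T ^ m)⁻¹) = (c.sg ^ m) (c.r x) := by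
    intro m
    induction m with
    | zero => intro x _; simp
    | succ m ih =>
      intro x hx
      have h1 : c.T ^ (m + 1) * x * (c.T ^ (m + 1))⁻¹ =
          c.T ^ m * (c.T * x * c.T⁻¹) * (c.T ^ m)⁻¹ := by
        rw [pow_succ, mul_inv_rev]
        simp only [mul_assoc]
      rw [h1, ih _ (P_conj c.T_ne hx), c.r_T x hx, pow_succ]
      rfl
  obtain ⟨m, rfl | rfl⟩ := n.eq_nat_or_neg
  · rw [zpow_natCast, zpow_natCast, h m x hx]
  · have h1 := h m _ (P_conj' (c := c) (x := c.T ^ m) (pow_ne_zero _ c.T_ne) hx)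
    have h2 : c.T ^ m * ((c.T ^ m)⁻¹ * x * c.T ^ m) * (c.T ^ m)⁻¹ = x := by
      have := pow_ne_zero m c.T_ne
      rw [mul_assoc, mul_assoc, mul_inv_cancel₀ this, mul_one, mul_inv_cancel_left₀ this]
    rw [h2] at h1
    rw [zpow_neg, zpow_neg, zpow_natCast, zpow_natCast, inv_inv, h1]
    exact ((c.sg ^ m).symm_apply_apply _).symm

/-- Every non-zero element is `T ^ n u` with `u` a unit. -/
theorem exists_unit {x : D} (hx : x ≠ 0) : ∃ u : D, u ≠ 0 ∧ c.v u = 0 ∧ x = c.T ^ (c.v x) * u := by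
  refine ⟨(c.T ^ (c.v x))⁻¹ * x, mul_ne_zero (inv_ne_zero (T_zpow_ne _)) hx, ?_, ?_⟩
  · rw [c.v_mul _ _ (inv_ne_zero (T_zpow_ne _)) hx, v_inv (T_zpow_ne _), v_T_zpow]
    omega
  · rw [mul_inv_cancel_left₀ (T_zpow_ne _)]

theorem psi_congr {x y : D} (h : c.P 1 (x - y)) : c.psi x = c.psi y := by
  have : x = (x - y) + y := by rw [sub_add_cancel]
  rw [this, AddChar.map_add_eq_mul, c.psi_P _ h, one_mul]

theorem psi_ne (x : D) : c.psi x ≠ 0 := by
  intro h
  have := c.psi.map_add_eq_mul x (-x)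
  rw [add_neg_cancel, AddChar.map_zero_eq_one, h, zero_mul] at this
  exact one_ne_zero this

theorem psi_dual {i : ℤ} {x : D} (h : ∀ b, c.P i b → c.psi (x * b) = 1) : c.P (1 - i) x := by
  by_contra h1
  have h2 := ne_of_not_P h1
  have h3 := lt_of_not_P h1
  obtain ⟨y, hy, hy'⟩ := c.psi_O
  apply hy'
  have := h (x⁻¹ * y) (P_mono (by omega) (P_mul (P_inv (c := c) h2) hy))
  rwa [mul_inv_cancel_left₀ h2] at this

theorem psi_triv {i : ℤ} {x b : D} (hx : c.P (1 - i) x) (hb : c.P i b) : c.psi (x * b) = 1 :=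
  c.psi_P _ (P_mono (by omega) (P_mul hx hb))

/-- The character of the residue field. -/
theorem psi_O' {x : D} (hx : c.P 0 x) {y : D} (hy : c.P 0 y) (h : c.r x = c.r y) :
    c.psi x = c.psi y := psi_congr ((r_congr hx hy).1 h)

end VD

open VD

variable {c : VD D k}

/-- Representatives of `P ^ i / P ^ (i + n)`. -/
theorem exists_reps [Finite k] (c : VD D k) (i : ℤ) (n : ℕ) : ∃ S : Finset D, S.Nonempty ∧
    (∀ s ∈ S, c.P i s) ∧ (∀ x, c.P i x → ∃ s ∈ S, c.P (i + n) (x - s)) ∧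
    ∀ s ∈ S, ∀ s' ∈ S, c.P (i + n) (s - s') → s = s' := by
  classical
  have : Fintype k := Fintype.ofFinite k
  induction n with
  | zero =>
    refine ⟨{0}, ⟨0, by simp⟩, by simp [c.P_zero], fun x hx => ⟨0, by simp, by simpa using hx⟩, ?_⟩
    intro s hs s' hs' _
    rw [Finset.mem_singleton] at hs hs'
    rw [hs, hs']
  | succ n ih =>
    obtain ⟨S, hS0, hS1, hS2, hS3⟩ := ih
    choose l hl hl' using c.r_surj
    let F : D × k → D := fun p => p.1 + c.T ^ (i + n) * l p.2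
    have hP : ∀ a, c.P (i + n) (c.T ^ (i + n) * l a) := fun a => by
      have := P_mul (P_self (c := c) (x := c.T ^ (i + n))) (hl a)
      rw [v_T_zpow] at this
      exact P_mono (by omega) this
    refine ⟨(S ×ˢ Finset.univ).image F, ?_, ?_, ?_, ?_⟩
    · exact (hS0.product ⟨0, Finset.mem_univ _⟩).image F
    · intro s hs
      obtain ⟨p, hp, rfl⟩ := Finset.mem_image.1 hs
      have hp1 := (Finset.mem_product.1 hp).1
      exact P_add (hS1 _ hp1) (P_mono (by omega) (hP p.2))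
    · intro x hx
      obtain ⟨s, hs, hs'⟩ := hS2 x hx
      have h1 : c.P 0 ((c.T ^ (i + n))⁻¹ * (x - s)) := by
        have := P_mul (P_inv (c := c) (T_zpow_ne (c := c) (i + n))) hs'
        rw [v_T_zpow] at this
        exact P_mono (by omega) this
      refine ⟨F (s, c.r ((c.T ^ (i + n))⁻¹ * (x - s))), Finset.mem_image.2 ⟨_, Finset.mem_product.2 ⟨hs, Finset.mem_univ _⟩, rfl⟩, ?_⟩
      have h2 : c.P 1 ((c.T ^ (i + n))⁻¹ * (x - s) - l (c.r ((c.T ^ (i + n))⁻¹ * (x - s)))) :=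
        (r_congr h1 (hl _)).1 (hl' _).symm
      have h3 := P_mul (P_self (c := c) (x := c.T ^ (i + n))) h2
      rw [v_T_zpow, mul_sub, mul_inv_cancel_left₀ (T_zpow_ne _)] at h3
      refine P_mono (by push_cast; omega) (show c.P (i + n + 1) _ from ?_)
      have h4 : x - F (s, c.r ((c.T ^ (i + n))⁻¹ * (x - s))) =
          x - s - c.T ^ (i + n) * l (c.r ((c.T ^ (i + n))⁻¹ * (x - s))) := by
        simp only [F]
        abel
      rw [h4]
      exact h3
    · intro s hs s' hs' h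
      obtain ⟨p, hp, rfl⟩ := Finset.mem_image.1 hs
      obtain ⟨q, hq, rfl⟩ := Finset.mem_image.1 hs'
      have hp1 := (Finset.mem_product.1 hp).1
      have hq1 := (Finset.mem_product.1 hq).1
      have h1 : p.1 = q.1 := by
        apply hS3 _ hp1 _ hq1
        have h2 : p.1 - q.1 = (F p - F q) - (c.T ^ (i + n) * l p.2) + c.T ^ (i + n) * l q.2 := by
          simp only [F]
          abel
        rw [h2]
        exact P_add (P_sub (P_mono (by push_cast; omega) h) (hP _)) (hP _)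
      have h2 : p.2 = q.2 := by
        have h3 : F p - F q = c.T ^ (i + n) * (l p.2 - l q.2) := by
          simp only [F, h1, mul_sub]
          abel
        rw [h3] at h
        have h4 := P_of_mul_left (T_zpow_ne _) h
        rw [v_T_zpow] at h4
        have h5 := (r_congr (hl p.2) (hl q.2)).2 (P_mono (by push_cast; omega) h4)
        rwa [hl', hl'] at h5
      rw [Prod.ext h1 h2]

open Classical in
/-- Character sums over `P ^ i / P ^ (i + n)`. -/
theorem chsum {i : ℤ} {n : ℕ} {S : Finset D} (hS1 : ∀ s ∈ S, c.P i s)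
    (hS2 : ∀ x, c.P i x → ∃ s ∈ S, c.P (i + n) (x - s))
    (hS3 : ∀ s ∈ S, ∀ s' ∈ S, c.P (i + n) (s - s') → s = s') {z : D} (hz : c.P (1 - i - n) z) :
    ∑ b ∈ S, c.psi (z * b) = if c.P (1 - i) z then (S.card : ℂ) else 0 := by
  split_ifs with h
  · rw [Finset.sum_congr rfl fun b hb => psi_triv h (hS1 b hb)]
    simp
  · obtain ⟨b0, hb0, hb0'⟩ : ∃ b, c.P i b ∧ c.psi (z * b) ≠ 1 := by
      by_contra h'
      push Not at h'
      exact h (psi_dual h')
    choose g hg hg' using fun s : S => hS2 (s.1 + b0) (P_add (hS1 _ s.2) hb0)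
    have h1 : ∑ b ∈ S, c.psi (z * b) = ∑ b ∈ S, c.psi (z * b0) * c.psi (z * b) := by
      rw [← Finset.sum_coe_sort S, ← Finset.sum_coe_sort S]
      let G : S → S := fun s => ⟨g s, hg s⟩
      have hG : Function.Injective G := by
        intro s s' h
        have h2 : g s = g s' := congrArg Subtype.val h
        apply Subtype.ext
        apply hS3 _ s.2 _ s'.2
        have h3 : s.1 - s'.1 = (s.1 + b0 - g s) - (s'.1 + b0 - g s') := by rw [h2]; abel
        rw [h3]
        exact P_sub (hg' s) (hg' s')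
      have hG' : Function.Bijective G := Finite.injective_iff_bijective.1 hG
      rw [← hG'.sum_comp (fun s : S => c.psi (z * s.1))]
      refine Finset.sum_congr rfl fun s _ => ?_
      change c.psi (z * g s) = _
      rw [← AddChar.map_add_eq_mul, ← mul_add]
      apply psi_congr
      rw [← mul_sub]
      refine P_mul' hz (n := i + n) ?_ (by omega)
      have := P_sub_comm (hg' s)
      rwa [add_comm s.1 b0] at this
    rw [← Finset.mul_sum] at h1
    have h2 : (1 - c.psi (z * b0)) * ∑ b ∈ S, c.psi (z * b) = 0 := by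
      rw [sub_mul, one_mul, ← h1, sub_self]
    rcases mul_eq_zero.1 h2 with h3 | h3
    · exact absurd (sub_eq_zero.1 h3).symm hb0'
    · exact h3

/-! Matrices. -/

theorem dg_val {a d : D} (ha : a ≠ 0) (hd : d ≠ 0) : (dg a d).val = !![a, 0; 0, d] := by
  rw [dg, dif_pos ⟨ha, hd⟩]

theorem dg_inv_val {a d : D} (ha : a ≠ 0) (hd : d ≠ 0) : (dg a d)⁻¹.val = !![a⁻¹, 0; 0, d⁻¹] := by
  rw [dg, dif_pos ⟨ha, hd⟩]
  rfl

theorem nn_val (b : D) : (nn b).val = !![1, b; 0, 1] := rfl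
theorem nm_val (y : D) : (nm y).val = !![1, 0; y, 1] := rfl
theorem ww_val : (ww D).val = !![0, 1; 1, 0] := rfl

theorem ext2 {g h : G2 D} (h0 : g.val 0 0 = h.val 0 0) (h1 : g.val 0 1 = h.val 0 1)
    (h2 : g.val 1 0 = h.val 1 0) (h3 : g.val 1 1 = h.val 1 1) : g = h := by
  apply Units.ext
  refine Matrix.ext fun i j => ?_
  fin_cases i <;> fin_cases j
  exacts [h0, h1, h2, h3]

theorem mul00 (g h : G2 D) : (g * h).val 0 0 = g.val 0 0 * h.val 0 0 + g.val 0 1 * h.val 1 0 := by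
  rw [Units.val_mul, Matrix.mul_apply, Fin.sum_univ_two]
theorem mul01 (g h : G2 D) : (g * h).val 0 1 = g.val 0 0 * h.val 0 1 + g.val 0 1 * h.val 1 1 := by
  rw [Units.val_mul, Matrix.mul_apply, Fin.sum_univ_two]
theorem mul10 (g h : G2 D) : (g * h).val 1 0 = g.val 1 0 * h.val 0 0 + g.val 1 1 * h.val 1 0 := by
  rw [Units.val_mul, Matrix.mul_apply, Fin.sum_univ_two]
theorem mul11 (g h : G2 D) : (g * h).val 1 1 = g.val 1 0 * h.val 0 1 + g.val 1 1 * h.val 1 1 := by
  rw [Units.val_mul, Matrix.mul_apply, Fin.sum_univ_two]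

theorem nn_add (a b : D) : nn (a + b) = nn a * nn b :=
  ext2 (by simp [mul00, nn_val]) (by simp [mul01, nn_val, add_comm]) (by simp [mul10, nn_val])
    (by simp [mul11, nn_val])

theorem nn_zero : nn (0 : D) = 1 :=
  ext2 (by simp [nn_val]) (by simp [nn_val]) (by simp [nn_val]) (by simp [nn_val])

theorem nn_inv (b : D) : (nn b)⁻¹ = nn (-b) := by
  rw [inv_eq_iff_mul_eq_one, ← nn_add, add_neg_cancel, nn_zero]

theorem ww_ww : ww D * ww D = 1 :=
  ext2 (by simp [mul00, ww_val]) (by simp [mul01, ww_val]) (by simp [mul10, ww_val])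
    (by simp [mul11, ww_val])

theorem ww_nn_ww (b : D) : ww D * nn b * ww D = nm b :=
  ext2 (by simp [mul00, mul01, mul10, mul11, ww_val, nn_val, nm_val])
    (by simp [mul00, mul01, mul10, mul11, ww_val, nn_val, nm_val])
    (by simp [mul00, mul01, mul10, mul11, ww_val, nn_val, nm_val])
    (by simp [mul00, mul01, mul10, mul11, ww_val, nn_val, nm_val])

theorem ww_dg_ww {a d : D} (ha : a ≠ 0) (hd : d ≠ 0) : ww D * dg a d * ww D = dg d a :=
  ext2 (by simp [mul00, mul01, mul10, mul11, ww_val, dg_val ha hd, dg_val hd ha])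
    (by simp [mul00, mul01, mul10, mul11, ww_val, dg_val ha hd, dg_val hd ha])
    (by simp [mul00, mul01, mul10, mul11, ww_val, dg_val ha hd, dg_val hd ha])
    (by simp [mul00, mul01, mul10, mul11, ww_val, dg_val ha hd, dg_val hd ha])

theorem nm_add (a b : D) : nm (a + b) = nm a * nm b :=
  ext2 (by simp [mul00, nm_val]) (by simp [mul01, nm_val]) (by simp [mul10, nm_val])
    (by simp [mul11, nm_val])

theorem nm_zero : nm (0 : D) = 1 :=
  ext2 (by simp [nm_val]) (by simp [nm_val]) (by simp [nm_val]) (by simp [nm_val])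

theorem nm_inv (b : D) : (nm b)⁻¹ = nm (-b) := by
  rw [inv_eq_iff_mul_eq_one, ← nm_add, add_neg_cancel, nm_zero]

theorem dg_mul {a d a' d' : D} (ha : a ≠ 0) (hd : d ≠ 0) (ha' : a' ≠ 0) (hd' : d' ≠ 0) :
    dg a d * dg a' d' = dg (a * a') (d * d') :=
  ext2 (by simp [mul00, dg_val, ha, hd, ha', hd']) (by simp [mul01, dg_val, ha, hd, ha', hd'])
    (by simp [mul10, dg_val, ha, hd, ha', hd']) (by simp [mul11, dg_val, ha, hd, ha', hd'])

theorem dg_inv {a d : D} (ha : a ≠ 0) (hd : d ≠ 0) : (dg a d)⁻¹ = dg a⁻¹ d⁻¹ := by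
  rw [inv_eq_iff_mul_eq_one, dg_mul ha hd (inv_ne_zero ha) (inv_ne_zero hd), mul_inv_cancel₀ ha,
    mul_inv_cancel₀ hd]
  exact ext2 (by simp [dg_val]) (by simp [dg_val]) (by simp [dg_val]) (by simp [dg_val])

theorem dg_nn {a d : D} (ha : a ≠ 0) (hd : d ≠ 0) (b : D) :
    dg a d * nn b = nn (a * b * d⁻¹) * dg a d :=
  ext2 (by simp [mul00, nn_val, dg_val, ha, hd]) (by simp [mul01, nn_val, dg_val, ha, hd])
    (by simp [mul10, nn_val, dg_val, ha, hd]) (by simp [mul11, nn_val, dg_val, ha, hd])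

theorem dg_nm {a d : D} (ha : a ≠ 0) (hd : d ≠ 0) (y : D) :
    dg a d * nm y = nm (d * y * a⁻¹) * dg a d :=
  ext2 (by simp [mul00, nm_val, dg_val, ha, hd]) (by simp [mul01, nm_val, dg_val, ha, hd])
    (by simp [mul10, nm_val, dg_val, ha, hd]) (by simp [mul11, nm_val, dg_val, ha, hd])

/-- Bruhat relation. -/
theorem nn_bruhat {b : D} (hb : b ≠ 0) : nn b = nm b⁻¹ * (dg b (-b⁻¹) * ww D) * nm b⁻¹ := by
  have h : -b⁻¹ ≠ 0 := neg_ne_zero.2 (inv_ne_zero hb)
  exact ext2 (by simp [mul00, mul01, mul10, mul11, nn_val, nm_val, ww_val, dg_val hb h, hb])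
    (by simp [mul00, mul01, mul10, mul11, nn_val, nm_val, ww_val, dg_val hb h])
    (by simp [mul00, mul01, mul10, mul11, nn_val, nm_val, ww_val, dg_val hb h, hb])
    (by simp [mul00, mul01, mul10, mul11, nn_val, nm_val, ww_val, dg_val hb h, hb])

theorem sub00 (g : G2 D) : (g.val - 1) 0 0 = g.val 0 0 - 1 := by simp
theorem sub01 (g : G2 D) : (g.val - 1) 0 1 = g.val 0 1 := by simp
theorem sub10 (g : G2 D) : (g.val - 1) 1 0 = g.val 1 0 := by simp
theorem sub11 (g : G2 D) : (g.val - 1) 1 1 = g.val 1 1 - 1 := by simp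

theorem KK_iff {m : ℤ} {g : G2 D} : KK c m g ↔ c.P m (g.val 0 0 - 1) ∧ c.P m (g.val 0 1) ∧
    c.P m (g.val 1 0) ∧ c.P m (g.val 1 1 - 1) := by
  constructor
  · intro h
    exact ⟨by rw [← sub00]; exact h 0 0, by rw [← sub01]; exact h 0 1, by rw [← sub10]; exact h 1 0,
      by rw [← sub11]; exact h 1 1⟩
  · rintro ⟨h0, h1, h2, h3⟩ i j
    fin_cases i <;> fin_cases j
    · exact (sub00 g).symm ▸ h0
    · exact (sub01 g).symm ▸ h1
    · exact (sub10 g).symm ▸ h2
    · exact (sub11 g).symm ▸ h3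

theorem KI_iff {m : ℤ} {g : G2 D} : KI c m g ↔ c.P m (g.val 0 0 - 1) ∧ c.P m (g.val 0 1) ∧
    c.P (m + 1) (g.val 1 0) ∧ c.P m (g.val 1 1 - 1) := by
  rw [KI, sub00, sub01, sub10, sub11]

theorem KK_mono {m n : ℤ} (h : m ≤ n) {g : G2 D} (hg : KK c n g) : KK c m g :=
  fun i j => P_mono h (hg i j)

theorem KK_nn {m : ℤ} {b : D} (hb : c.P m b) : KK c m (nn b) :=
  KK_iff.2 ⟨by simp [nn_val, c.P_zero], by simpa [nn_val] using hb, by simp [nn_val, c.P_zero],
    by simp [nn_val, c.P_zero]⟩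

theorem KK_nm {m : ℤ} {b : D} (hb : c.P m b) : KK c m (nm b) :=
  KK_iff.2 ⟨by simp [nm_val, c.P_zero], by simp [nm_val, c.P_zero], by simpa [nm_val] using hb,
    by simp [nm_val, c.P_zero]⟩

theorem KK_dg {m : ℤ} (hm : 1 ≤ m) {a d : D} (ha : c.P m a) (hd : c.P m d) :
    KK c m (dg (1 + a) (1 + d)) := by
  have h1 := (one_add (P_mono hm ha)).1
  have h2 := (one_add (P_mono hm hd)).1
  exact KK_iff.2 ⟨by simpa [dg_val h1 h2] using ha, by simp [dg_val h1 h2, c.P_zero],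
    by simp [dg_val h1 h2, c.P_zero], by simpa [dg_val h1 h2] using hd⟩

/-- Multiplicativity of the congruence groups. -/
theorem KK_mul {m : ℤ} (hm : 0 ≤ m) {g h : G2 D} (hg : KK c m g) (hh : KK c m h) :
    KK c m (g * h) := by
  intro i j
  have : (g * h).val - 1 = (g.val - 1) * (h.val - 1) + (g.val - 1) + (h.val - 1) := by
    rw [Units.val_mul]
    noncomm_ring
  rw [this]
  simp only [Matrix.add_apply, Matrix.mul_apply, Fin.sum_univ_two]
  exact P_add (P_add (P_add (P_mul' (hg _ _) (hh _ _) (by omega)) (P_mul' (hg _ _) (hh _ _) (by omega)))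
    (hg i j)) (hh i j)

theorem KO_P0_of_KK {g : G2 D} (hg : KK c 0 g) (i j : Fin 2) : c.P 0 (g.val i j) := by
  have h := hg i j
  have h1 : g.val i j = (g.val - 1) i j + (1 : Matrix (Fin 2) (Fin 2) D) i j := by simp
  rw [h1]
  refine P_add h ?_
  by_cases hij : i = j
  · rw [hij, Matrix.one_apply_eq]; exact P_one
  · rw [Matrix.one_apply_ne hij]; exact c.P_zero 0

/-- Iwahori factorization of the congruence groups. -/
theorem KK_fac {m : ℤ} (hm : 1 ≤ m) {g : G2 D} (hg : KK c m g) : ∃ y u1 u2 b : D,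
    c.P m y ∧ c.P m u1 ∧ c.P m u2 ∧ c.P m b ∧ u1 = g.val 0 0 - 1 ∧
    c.P (2 * m) (u2 - (g.val 1 1 - 1)) ∧ g = nm y * dg (1 + u1) (1 + u2) * nn b := by
  obtain ⟨h0, h1, h2, h3⟩ := KK_iff.1 hg
  have h4 := one_add (P_mono hm h0)
  rw [add_sub_cancel] at h4
  have h5 : c.P 0 (g.val 0 0)⁻¹ := Or.inr (by rw [v_inv h4.1, h4.2]; simp)
  have h6 : c.P (2 * m) (g.val 1 0 * (g.val 0 0)⁻¹ * g.val 0 1) :=
    P_mul' (P_mul h2 h5) h1 (by omega)
  have h7 : c.P m (g.val 1 1 - g.val 1 0 * (g.val 0 0)⁻¹ * g.val 0 1 - 1) := by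
    have : g.val 1 1 - g.val 1 0 * (g.val 0 0)⁻¹ * g.val 0 1 - 1 =
      g.val 1 1 - 1 - g.val 1 0 * (g.val 0 0)⁻¹ * g.val 0 1 := by abel
    rw [this]
    exact P_sub h3 (P_mono (by omega) h6)
  have h8 := one_add (P_mono hm h7)
  have h9 : (1 : D) + (g.val 0 0 - 1) = g.val 0 0 := by abel
  refine ⟨g.val 1 0 * (g.val 0 0)⁻¹, g.val 0 0 - 1,
    g.val 1 1 - g.val 1 0 * (g.val 0 0)⁻¹ * g.val 0 1 - 1, (g.val 0 0)⁻¹ * g.val 0 1,
    P_mul' h2 h5 (by omega), h0, h7, P_mul' h5 h1 (by omega), rfl, ?_, ?_⟩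
  · have : g.val 1 1 - g.val 1 0 * (g.val 0 0)⁻¹ * g.val 0 1 - 1 - (g.val 1 1 - 1) =
      -(g.val 1 0 * (g.val 0 0)⁻¹ * g.val 0 1) := by abel
    rw [this]
    exact P_neg h6
  · have h8' := h8.1
    rw [add_sub_cancel] at h8'
    rw [h9, add_sub_cancel]
    exact ext2 (by simp [mul00, mul01, mul10, nn_val, nm_val, dg_val h4.1 h8'])
      (by simp [mul00, mul01, mul10, mul11, nn_val, nm_val, dg_val h4.1 h8', h4.1])
      (by simp [mul00, mul01, mul10, mul11, nn_val, nm_val, dg_val h4.1 h8', h4.1])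
      (by simp [mul00, mul01, mul10, mul11, nn_val, nm_val, dg_val h4.1 h8', h4.1, ← mul_assoc])

end Pool.Agent.Helper42.QD
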