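import Pool.Agent.Helper42.QD.Lib

namespace Pool.Agent.Helper42.QD

set_option linter.unusedSimpArgs false

variable {D k : Type} [DivisionRing D] [Field k] {c : VD D k}

open VD

theorem KO_mul {g h : G2 D} (hg : KO c g) (hh : KO c h) : KO c (g * h) := by
  constructor
  · intro i j
    rw [Units.val_mul, Matrix.mul_apply, Fin.sum_univ_two]
    exact P_add (P_mul' (hg.1 _ _) (hh.1 _ _) (by omega)) (P_mul' (hg.1 _ _) (hh.1 _ _) (by omega))
  · intro i j
    rw [mul_inv_rev, Units.val_mul, Matrix.mul_apply, Fin.sum_univ_two]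
    exact P_add (P_mul' (hh.2 _ _) (hg.2 _ _) (by omega)) (P_mul' (hh.2 _ _) (hg.2 _ _) (by omega))

theorem KO_inv {g : G2 D} (hg : KO c g) : KO c g⁻¹ := ⟨hg.2, by rw [inv_inv]; exact hg.1⟩

theorem KO_nn {b : D} (hb : c.P 0 b) : KO c (nn b) := by
  constructor
  · exact KO_P0_of_KK (KK_nn hb)
  · rw [nn_inv]; exact KO_P0_of_KK (KK_nn (P_neg hb))

theorem KO_nm {b : D} (hb : c.P 0 b) : KO c (nm b) := by
  constructor
  · exact KO_P0_of_KK (KK_nm hb)
  · rw [nm_inv]; exact KO_P0_of_KK (KK_nm (P_neg hb))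

theorem KO_ww : KO c (ww D) := by
  have h : ∀ i j, c.P 0 ((ww D).val i j) := by
    intro i j
    fin_cases i <;> fin_cases j <;> simp [ww_val, c.P_zero, P_one]
  exact ⟨h, h⟩

theorem KO_dg {a d : D} (ha : a ≠ 0) (hd : d ≠ 0) (ha' : c.v a = 0) (hd' : c.v d = 0) :
    KO c (dg a d) := by
  have h1 : c.P 0 a := Or.inr ha'.ge
  have h2 : c.P 0 d := Or.inr hd'.ge
  have h3 : c.P 0 a⁻¹ := Or.inr (by rw [v_inv ha, ha']; simp)
  have h4 : c.P 0 d⁻¹ := Or.inr (by rw [v_inv hd, hd']; simp)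
  constructor
  · intro i j
    rw [dg_val ha hd]
    fin_cases i <;> fin_cases j <;> simp [c.P_zero, h1, h2]
  · intro i j
    rw [dg_inv_val ha hd]
    fin_cases i <;> fin_cases j <;> simp [c.P_zero, h3, h4]

theorem KK_conj {m : ℤ} {x g : G2 D} (hx : KO c x) (hg : KK c m g) : KK c m (x * g * x⁻¹) := by
  intro i j
  have : (x * g * x⁻¹).val - 1 = x.val * (g.val - 1) * x⁻¹.val := by
    rw [Units.val_mul, Units.val_mul, mul_sub, sub_mul, mul_one, Units.mul_inv]
  rw [this]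
  simp only [Matrix.mul_apply, Fin.sum_univ_two]
  exact P_add (P_mul' (P_add (P_mul' (hx.1 _ _) (hg _ _) le_rfl) (P_mul' (hx.1 _ _) (hg _ _) le_rfl))
      (hx.2 _ _) (by omega))
    (P_mul' (P_add (P_mul' (hx.1 _ _) (hg _ _) le_rfl) (P_mul' (hx.1 _ _) (hg _ _) le_rfl))
      (hx.2 _ _) (by omega))

theorem KK_conj' {m : ℤ} {x g : G2 D} (hx : KO c x) (hg : KK c m g) : KK c m (x⁻¹ * g * x) := by
  have := KK_conj (KO_inv hx) hg
  rwa [inv_inv] at this

/-- Conjugation by scalar matrices. -/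
theorem KK_conj_scalar {m : ℤ} {a : D} (ha : a ≠ 0) {g : G2 D} (hg : KK c m g) :
    KK c m ((dg a a)⁻¹ * g * dg a a) := by
  intro i j
  have h1 : ((dg a a)⁻¹ * g * dg a a).val - 1 = (dg a a)⁻¹.val * (g.val - 1) * (dg a a).val := by
    rw [Units.val_mul, Units.val_mul, mul_sub, sub_mul, mul_one, Units.inv_mul]
  rw [h1, dg_val ha ha, dg_inv_val ha ha]
  have h2 := P_conj' (c := c) ha (hg i j)
  simp only [Matrix.mul_apply, Fin.sum_univ_two]
  fin_cases i <;> fin_cases j <;> simpa using h2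

theorem KK_inv {m : ℤ} (hm : 1 ≤ m) {g : G2 D} (hg : KK c m g) : KK c m g⁻¹ := by
  obtain ⟨y, u1, u2, b, hy, hu1, hu2, hb, _, _, rfl⟩ := KK_fac hm hg
  have h1 := one_add (P_mono hm hu1)
  have h2 := one_add (P_mono hm hu2)
  rw [mul_inv_rev, mul_inv_rev, nn_inv, nm_inv, dg_inv h1.1 h2.1]
  refine KK_mul (by omega) (KK_nn (P_neg hb)) (KK_mul (by omega) ?_ (KK_nm (P_neg hy)))
  have := KK_dg (c := c) hm (one_add_inv hm hu1) (one_add_inv hm hu2)
  rwa [add_sub_cancel, add_sub_cancel] at this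

theorem psi_trace_comm (A B : Matrix (Fin 2) (Fin 2) D) :
    c.psi (A * B).trace = c.psi (B * A).trace := by
  simp only [Matrix.trace_fin_two, Matrix.mul_apply, Fin.sum_univ_two, AddChar.map_add_eq_mul]
  rw [c.psi_comm (A 0 0), c.psi_comm (A 0 1), c.psi_comm (A 1 0), c.psi_comm (A 1 1)]
  ring

section KMlib

variable {R : KM c}

theorem rho_mul (g h : G2 D) (f : Sp c) : R.rho (g * h) f = R.rho g (R.rho h f) := by
  rw [map_mul]; rfl

theorem rho_one (f : Sp c) : R.rho 1 f = f := by rw [map_one]; rfl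

theorem rho_inv_mul (g : G2 D) (f : Sp c) : R.rho g⁻¹ (R.rho g f) = f := by
  rw [← rho_mul, inv_mul_cancel, rho_one]

theorem rho_mul_inv (g : G2 D) (f : Sp c) : R.rho g (R.rho g⁻¹ f) = f := by
  rw [← rho_mul, mul_inv_cancel, rho_one]

theorem rho_ne {g : G2 D} {f : Sp c} (hf : f ≠ 0) : R.rho g f ≠ 0 := by
  intro h
  apply hf
  rw [← rho_inv_mul (R := R) g f, h, map_zero]

theorem Fix_KO {m : ℤ} {x : G2 D} (hx : KO c x) {f : Sp c} (hf : Fix R m f) :
    Fix R m (R.rho x f) := by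
  intro g hg
  rw [← rho_mul, show g * x = x * (x⁻¹ * g * x) by group, rho_mul, hf _ (KK_conj' hx hg)]

theorem Fix_scalar {m : ℤ} {a : D} (ha : a ≠ 0) {f : Sp c} (hf : Fix R m f) :
    Fix R m (R.rho (dg a a) f) := by
  intro g hg
  rw [← rho_mul, show g * dg a a = dg a a * ((dg a a)⁻¹ * g * dg a a) by group, rho_mul,
    hf _ (KK_conj_scalar ha hg)]

theorem Ty_KO {h : ℤ} {M : Matrix (Fin 2) (Fin 2) D} {x : G2 D} (hx : KO c x) {f : Sp c}
    (hf : Ty R h M f) : Ty R h (x.val * M * x⁻¹.val) (R.rho x f) := by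
  intro g hg
  rw [← rho_mul, show g * x = x * (x⁻¹ * g * x) by group, rho_mul, hf _ (KK_conj' hx hg), map_smul]
  congr 1
  have h1 : (x⁻¹ * g * x).val - 1 = x⁻¹.val * (g.val - 1) * x.val := by
    rw [Units.val_mul, Units.val_mul, mul_sub, sub_mul, mul_one, Units.inv_mul]
  rw [h1, ← mul_assoc, psi_trace_comm]
  simp only [mul_assoc]

theorem Ty_congr {h : ℤ} {M M' : Matrix (Fin 2) (Fin 2) D} (hM : ∀ i j, c.P (1 - h) (M i j - M' i j))
    {f : Sp c} (hf : Ty R h M f) : Ty R h M' f := by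
  intro g hg
  rw [hf g hg]
  congr 1
  apply psi_congr
  have : (M * (g.val - 1)).trace - (M' * (g.val - 1)).trace = ((M - M') * (g.val - 1)).trace := by
    rw [sub_mul, Matrix.trace_sub]
  rw [this]
  simp only [Matrix.trace_fin_two, Matrix.mul_apply, Fin.sum_univ_two, Matrix.sub_apply]
  have hg' : ∀ i j, c.P h ((g.val i j - (1 : Matrix (Fin 2) (Fin 2) D) i j)) := fun i j => by
    have := hg i j
    rwa [Matrix.sub_apply] at this
  exact P_add (P_add (P_mul' (hM _ _) (hg' _ _) (by omega)) (P_mul' (hM _ _) (hg' _ _) (by omega)))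
    (P_add (P_mul' (hM _ _) (hg' _ _) (by omega)) (P_mul' (hM _ _) (hg' _ _) (by omega)))

theorem Ty_Fix {h : ℤ} {M : Matrix (Fin 2) (Fin 2) D} (hM : ∀ i j, c.P (-h) (M i j))
    {f : Sp c} (hf : Ty R h M f) : Fix R (h + 1) f := by
  intro g hg
  rw [hf g (KK_mono (by omega) hg), c.psi_P, one_smul]
  simp only [Matrix.trace_fin_two, Matrix.mul_apply, Fin.sum_univ_two]
  exact P_add (P_add (P_mul' (hM _ _) (hg _ _) (by omega)) (P_mul' (hM _ _) (hg _ _) (by omega)))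
    (P_add (P_mul' (hM _ _) (hg _ _) (by omega)) (P_mul' (hM _ _) (hg _ _) (by omega)))

theorem Ty_add {h : ℤ} {M : Matrix (Fin 2) (Fin 2) D} {f g : Sp c} (hf : Ty R h M f)
    (hg : Ty R h M g) : Ty R h M (f + g) := by
  intro x hx
  rw [map_add, hf x hx, hg x hx, smul_add]

theorem Ty_smul {h : ℤ} {M : Matrix (Fin 2) (Fin 2) D} {f : Sp c} (a : ℂ) (hf : Ty R h M f) :
    Ty R h M (a • f) := by
  intro x hx
  rw [map_smul, hf x hx, smul_comm]

/-- The congruence subgroup `1 + P M_2(O)` preserves eigenspaces. -/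
theorem Ty_K1 {h : ℤ} {M : Matrix (Fin 2) (Fin 2) D} (hM : ∀ i j, c.P (-h) (M i j)) {x : G2 D}
    (hx : KK c 1 x) {f : Sp c} (hf : Ty R h M f) : Ty R h M (R.rho x f) := by
  have hx' := KK_inv le_rfl hx
  have hK : KO c x := ⟨KO_P0_of_KK (KK_mono (by omega) hx), KO_P0_of_KK (KK_mono (by omega) hx')⟩
  refine Ty_congr (fun i j => ?_) (Ty_KO hK hf)
  have h1 : x.val * M * x⁻¹.val - M = (x.val - 1) * M * x⁻¹.val + M * (x⁻¹.val - 1) := by
    noncomm_ring
  have h2 : (x.val * M * x⁻¹.val) i j - M i j = (x.val * M * x⁻¹.val - M) i j := rfl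
  rw [h2, h1]
  simp only [Matrix.add_apply, Matrix.mul_apply, Fin.sum_univ_two]
  exact P_add (P_add
      (P_mul' (P_add (P_mul' (hx _ _) (hM _ _) le_rfl) (P_mul' (hx _ _) (hM _ _) le_rfl))
        (hK.2 _ _) (by omega))
      (P_mul' (P_add (P_mul' (hx _ _) (hM _ _) le_rfl) (P_mul' (hx _ _) (hM _ _) le_rfl))
        (hK.2 _ _) (by omega)))
    (P_add (P_mul' (hM _ _) (hx' _ _) (by omega)) (P_mul' (hM _ _) (hx' _ _) (by omega)))

/-- Action of diagonal elements close to `1` on an eigenvector. -/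
theorem Ty_dg {h : ℤ} (hh : 1 ≤ h) {M : Matrix (Fin 2) (Fin 2) D} {f : Sp c} (hf : Ty R h M f)
    {a d : D} (ha : c.P h a) (hd : c.P h d) :
    R.rho (dg (1 + a) (1 + d)) f = c.psi (M 0 0 * a + M 1 1 * d) • f := by
  rw [hf _ (KK_dg hh ha hd)]
  have h1 := (one_add (P_mono hh ha)).1
  have h2 := (one_add (P_mono hh hd)).1
  congr 2
  simp [Matrix.trace_fin_two, Matrix.mul_apply, Fin.sum_univ_two, dg_val h1 h2]

theorem Ty_nn {h : ℤ} {M : Matrix (Fin 2) (Fin 2) D} {f : Sp c} (hf : Ty R h M f)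
    {b : D} (hb : c.P h b) : R.rho (nn b) f = c.psi (M 1 0 * b) • f := by
  rw [hf _ (KK_nn hb)]
  congr 2
  simp [Matrix.trace_fin_two, Matrix.mul_apply, Fin.sum_univ_two, nn_val]

theorem Ty_nm {h : ℤ} {M : Matrix (Fin 2) (Fin 2) D} {f : Sp c} (hf : Ty R h M f)
    {b : D} (hb : c.P h b) : R.rho (nm b) f = c.psi (M 0 1 * b) • f := by
  rw [hf _ (KK_nm hb)]
  congr 2
  simp [Matrix.trace_fin_two, Matrix.mul_apply, Fin.sum_univ_two, nm_val]

/-- To have a type it suffices to know the action of the three factors. -/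
theorem Ty_of {h : ℤ} (hh : 1 ≤ h) {M : Matrix (Fin 2) (Fin 2) D} (hM : ∀ i j, c.P (-h) (M i j))
    {f : Sp c} (h1 : ∀ b, c.P h b → R.rho (nn b) f = c.psi (M 1 0 * b) • f)
    (h2 : ∀ a d, c.P h a → c.P h d → R.rho (dg (1 + a) (1 + d)) f = c.psi (M 0 0 * a + M 1 1 * d) • f)
    (h3 : ∀ b, c.P h b → R.rho (nm b) f = c.psi (M 0 1 * b) • f) : Ty R h M f := by
  intro g hg
  obtain ⟨y, u1, u2, b, hy, hu1, hu2, hb, e1, e2, rfl⟩ := KK_fac hh hg
  rw [rho_mul, rho_mul, h1 b hb, map_smul, map_smul, h2 u1 u2 hu1 hu2, map_smul, h3 y hy, smul_smul,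
    smul_smul, ← AddChar.map_add_eq_mul, ← AddChar.map_add_eq_mul]
  congr 1
  apply psi_congr
  have n1 := one_add (P_mono hh hu1)
  have n2 := one_add (P_mono hh hu2)
  have e3 : ((M * ((nm y * dg (1 + u1) (1 + u2) * nn b).val - 1)).trace) =
      M 0 0 * u1 + M 0 1 * (y * (1 + u1)) + (M 1 0 * ((1 + u1) * b) +
        M 1 1 * (y * (1 + u1) * b + u2)) := by
    simp only [Matrix.trace_fin_two, Matrix.mul_apply, Fin.sum_univ_two, sub00, sub01, sub10, sub11]
    simp only [mul00, mul01, mul10, mul11, nn_val, nm_val, dg_val n1.1 n2.1, Matrix.of_apply,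
      Matrix.cons_val', Matrix.cons_val_zero, Matrix.cons_val_one, Matrix.cons_val_fin_one]
    noncomm_ring
  rw [e3]
  have e4 : M 1 0 * b + (M 0 0 * u1 + M 1 1 * u2) + M 0 1 * y -
      (M 0 0 * u1 + M 0 1 * (y * (1 + u1)) + (M 1 0 * ((1 + u1) * b) +
        M 1 1 * (y * (1 + u1) * b + u2))) =
      -(M 0 1 * (y * u1) + M 1 0 * (u1 * b) + M 1 1 * (y * (1 + u1) * b)) := by
    noncomm_ring
  rw [e4]
  have p1 : c.P 0 (1 + u1) := Or.inr n1.2.ge
  exact P_neg (P_add (P_add (P_mul' (hM _ _) (P_mul hy hu1) (by omega))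
    (P_mul' (hM _ _) (P_mul hu1 hb) (by omega))) (P_mul' (hM _ _) (P_mul (P_mul hy p1) hb) (by omega)))

theorem val_zero (f : Sp c) : f.1 0 = 0 := f.2.1

theorem rn' (b : D) (f : Sp c) (x : D) : (R.rho (nn b) f).1 x = c.psi (x * b) * f.1 x := R.rn b f x

/-- Support of a vector fixed by `N(P ^ i)`. -/
theorem supp_of_nn {i : ℤ} {f : Sp c} (hf : ∀ b, c.P i b → R.rho (nn b) f = f) {x : D}
    (hx : f.1 x ≠ 0) : c.P (1 - i) x := by
  apply psi_dual
  intro b hb
  have h := congrArg (fun g : Sp c => g.1 x) (hf b hb)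
  simp only [R.rn] at h
  exact mul_right_cancel₀ hx (by rw [h, one_mul])

theorem nn_of_supp {i : ℤ} {f : Sp c} (hf : ∀ x, f.1 x ≠ 0 → c.P (1 - i) x) {b : D}
    (hb : c.P i b) : R.rho (nn b) f = f := by
  apply Subtype.ext
  funext x
  rw [R.rn]
  by_cases h : f.1 x = 0
  · rw [h, mul_zero]
  · rw [psi_triv (hf x h) hb, one_mul]

/-- Support of a vector with `N(P ^ i)`-character `psi (z b)`. -/
theorem supp_of_nn' {i : ℤ} {z : D} {f : Sp c} (hf : ∀ b, c.P i b → R.rho (nn b) f = c.psi (z * b) • f)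
    {x : D} (hx : f.1 x ≠ 0) : c.P (1 - i) (x - z) := by
  apply psi_dual
  intro b hb
  have h := congrArg (fun g : Sp c => g.1 x) (hf b hb)
  simp only [R.rn] at h
  have h1 : c.psi (x * b) = c.psi (z * b) := mul_right_cancel₀ hx h
  rw [sub_mul, sub_eq_add_neg, AddChar.map_add_eq_mul, h1, ← AddChar.map_add_eq_mul, add_neg_cancel,
    AddChar.map_zero_eq_one]

theorem nn_of_supp' {i : ℤ} {z : D} {f : Sp c} (hf : ∀ x, f.1 x ≠ 0 → c.P (1 - i) (x - z)) {b : D}
    (hb : c.P i b) : R.rho (nn b) f = c.psi (z * b) • f := by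
  apply Subtype.ext
  funext x
  rw [R.rn]
  change _ = c.psi (z * b) * f.1 x
  by_cases h : f.1 x = 0
  · rw [h, mul_zero, mul_zero]
  · congr 1
    have := psi_triv (hf x h) hb
    rw [sub_mul, sub_eq_add_neg, AddChar.map_add_eq_mul, AddChar.map_neg_eq_inv] at this
    have h2 := psi_ne (c := c) (z * b)
    field_simp at this
    exact this

/-- Right invariance of a vector fixed by `1 + P ^ m M_2(O)`. -/
theorem Fix_right {m : ℤ} (hm : 1 ≤ m) {f : Sp c} (hf : Fix R m f) {x u : D} (hu : c.P m u) :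
    f.1 (x * (1 + u)) = f.1 x := by
  have h := congrArg (fun g : Sp c => g.1 x) (hf _ (KK_dg hm hu (c.P_zero m)))
  simp only [add_zero] at h
  rw [R.rt _ _ (one_add (P_mono hm hu)).1 one_ne_zero, map_one, one_mul, inv_one, one_mul] at h
  exact h

theorem Fix_nn {m : ℤ} {f : Sp c} (hf : Fix R m f) {b : D} (hb : c.P m b) : R.rho (nn b) f = f :=
  hf _ (KK_nn hb)

theorem Fix_supp {m : ℤ} {f : Sp c} (hf : Fix R m f) {x : D} (hx : f.1 x ≠ 0) : c.P (1 - m) x :=
  supp_of_nn (fun _ hb => Fix_nn hf hb) hx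

/-- Membership of indicator functions. -/
theorem IsS_ind {x : D} {n : ℤ} (hx : x ≠ 0) (hn : c.v x < n) : IsS c (ind c x n) := by
  refine ⟨?_, (c.v x).natAbs + n.natAbs + 1, by omega, fun y u hu => ?_, fun y hy => ?_⟩
  · rw [ind, if_neg]
    rw [zero_sub]
    intro h
    have := P_neg h
    rw [neg_neg, P_iff hx] at this
    omega
  · have key : ∀ y u, c.P (((c.v x).natAbs + n.natAbs + 1 : ℕ) : ℤ) u → c.P n (y - x) →
        c.P n (y * (1 + u) - x) := by
      intro y u hu h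
      have h1 : y * (1 + u) - x = (y - x) + y * u := by noncomm_ring
      have h2 := v_congr hx (P_mono (by omega) h)
      rw [h1]
      refine P_add h (P_mul' (m := c.v x) (Or.inr h2.2.ge) hu ?_)
      omega
    unfold ind
    by_cases h : c.P n (y - x)
    · rw [if_pos h, if_pos (key y u hu h)]
    · rw [if_neg h, if_neg]
      intro h'
      apply h
      have hu1 : c.P 1 u := P_mono (by omega) hu
      have h3 := key (y * (1 + u)) ((1 + u)⁻¹ - 1) (one_add_inv (by omega) hu) h'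
      rw [add_sub_cancel, mul_inv_cancel_right₀ (one_add hu1).1] at h3
      exact h3
  · unfold ind at hy
    split_ifs at hy with h
    · have h2 := v_congr hx (P_mono (by omega) h)
      omega
    · exact absurd rfl hy

/-- A subspace stable under `N(P ^ i)` is stable under restriction to cosets of `P ^ (1 - i)`. -/
theorem cut_mem [Finite k] {W : Submodule ℂ (Sp c)} {i : ℤ}
    (hW : ∀ b, c.P i b → ∀ f ∈ W, R.rho (nn b) f ∈ W) {f : Sp c} (hf : f ∈ W) (x : D) :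
    ∃ f' ∈ W, f'.1 = cut c x (1 - i) f.1 := by
  classical
  obtain ⟨m, hm, hm1, hm2⟩ := f.2.2
  obtain ⟨n, hn⟩ : ∃ n : ℕ, (1 - i - n ≤ -m) ∧ (1 - i - n ≤ c.v x) :=
    ⟨(1 - i).natAbs + m + (c.v x).natAbs, by omega, by omega⟩
  obtain ⟨S, hS0, hS1, hS2, hS3⟩ := exists_reps c i n
  have hc : (S.card : ℂ) ≠ 0 := by exact_mod_cast hS0.card_pos.ne'
  refine ⟨(S.card : ℂ)⁻¹ • ∑ b ∈ S, c.psi (-(x * b)) • R.rho (nn b) f, ?_, ?_⟩
  · exact W.smul_mem _ (W.sum_mem fun b hb => W.smul_mem _ (hW b (hS1 b hb) f hf))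
  · funext y
    have h1 : ((S.card : ℂ)⁻¹ • ∑ b ∈ S, c.psi (-(x * b)) • R.rho (nn b) f : Sp c).1 y =
        (S.card : ℂ)⁻¹ * ((∑ b ∈ S, c.psi ((y - x) * b)) * f.1 y) := by
      have h2 : (∑ b ∈ S, c.psi (-(x * b)) • R.rho (nn b) f : Sp c).1 y =
          ∑ b ∈ S, c.psi (-(x * b)) * (c.psi (y * b) * f.1 y) := by
        rw [Submodule.coe_sum, Finset.sum_apply]
        refine Finset.sum_congr rfl fun b _ => ?_
        rw [← R.rn]
        rfl
      change (S.card : ℂ)⁻¹ * (∑ b ∈ S, c.psi (-(x * b)) • R.rho (nn b) f : Sp c).1 y = _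
      rw [h2, Finset.sum_mul]
      congr 1
      refine Finset.sum_congr rfl fun b _ => ?_
      rw [← mul_assoc, ← AddChar.map_add_eq_mul]
      congr 2
      noncomm_ring
    rw [h1, cut]
    by_cases hy : f.1 y = 0
    · rw [hy]; simp
    · have h3 := hm2 y hy
      have h4 : c.P (1 - i - n) (y - x) := P_sub (Or.inr (by omega)) (Or.inr (by omega))
      rw [chsum hS1 hS2 hS3 h4]
      split_ifs with h5
      · rw [← mul_assoc, inv_mul_cancel₀ hc, one_mul]
      · rw [zero_mul, mul_zero]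

end KMlib

end Pool.Agent.Helper42.QD
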