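import Pool.Agent.Helper42.QD.Lib2

namespace Pool.Agent.Helper42.QD

set_option linter.unusedSimpArgs false

variable {D k : Type} [DivisionRing D] [Field k] {c : VD D k} {R : KM c}

open VD

theorem exists_ne {f : Sp c} (hf : f ≠ 0) : ∃ x, x ≠ 0 ∧ f.1 x ≠ 0 := by
  by_contra h
  push Not at h
  apply hf
  apply Subtype.ext
  funext x
  by_cases hx : x = 0
  · rw [hx]; exact f.2.1
  · exact h x hx

theorem Sp_ext {f g : Sp c} (h : ∀ x, f.1 x = g.1 x) : f = g := Subtype.ext (funext h)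

/-- The subspace of vectors fixed by `1 + P ^ m M_2(O)`. -/
def FixS (R : KM c) (m : ℤ) : Submodule ℂ (Sp c) where
  carrier := {f | Fix R m f}
  add_mem' := by
    intro f g hf hg x hx
    rw [map_add, hf x hx, hg x hx]
  zero_mem' := fun x _ => map_zero _
  smul_mem' := by
    intro a f hf x hx
    rw [map_smul, hf x hx]

theorem mem_FixS {m : ℤ} {f : Sp c} : f ∈ FixS R m ↔ Fix R m f := Iff.rfl

/-- The subspace of vectors of type `M`. -/
def TyS (R : KM c) (h : ℤ) (M : Matrix (Fin 2) (Fin 2) D) : Submodule ℂ (Sp c) where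
  carrier := {f | Ty R h M f}
  add_mem' := fun hf hg => Ty_add hf hg
  zero_mem' := fun x _ => by rw [map_zero, smul_zero]
  smul_mem' := fun a _ hf => Ty_smul a hf

theorem mem_TyS {h : ℤ} {M : Matrix (Fin 2) (Fin 2) D} {f : Sp c} :
    f ∈ TyS R h M ↔ Ty R h M f := Iff.rfl

theorem cut_Fix [Finite k] {m i : ℤ} (hi : 0 ≤ i) {f : Sp c} (hf : Fix R m f) (x : D) :
    ∃ f' : Sp c, Fix R m f' ∧ f'.1 = cut c x (1 - i) f.1 :=
  cut_mem (W := FixS R m) (fun _ hb _ hf => Fix_KO (KO_nn (P_mono hi hb)) hf) hf x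

theorem cut_Ty [Finite k] {h i : ℤ} (hi : 1 ≤ i) {M : Matrix (Fin 2) (Fin 2) D}
    (hM : ∀ i j, c.P (-h) (M i j)) {f : Sp c} (hf : Ty R h M f) (x : D) :
    ∃ f' : Sp c, Ty R h M f' ∧ f'.1 = cut c x (1 - i) f.1 :=
  cut_mem (W := TyS R h M) (fun _ hb _ hf => Ty_K1 hM (KK_nn (P_mono hi hb)) hf) hf x

theorem cut_apply_of {x y : D} {n : ℤ} {f : D → ℂ} (h : c.P n (y - x)) : cut c x n f y = f y := by
  rw [cut, if_pos h]

theorem cut_apply_of_not {x y : D} {n : ℤ} {f : D → ℂ} (h : ¬ c.P n (y - x)) :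
    cut c x n f y = 0 := by
  rw [cut, if_neg h]

theorem ind_apply_of {x y : D} {n : ℤ} (h : c.P n (y - x)) : ind c x n y = 1 := by
  rw [ind, if_pos h]

theorem ind_apply_of_not {x y : D} {n : ℤ} (h : ¬ c.P n (y - x)) : ind c x n y = 0 := by
  rw [ind, if_neg h]

/-- The matrix entries of a type given by its four entries. -/
theorem P_of {m : ℤ} {a b d e : D} (h1 : c.P m a) (h2 : c.P m b) (h3 : c.P m d) (h4 : c.P m e) :
    ∀ i j, c.P m ((!![a, b; d, e] : Matrix (Fin 2) (Fin 2) D) i j) := by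
  intro i j
  fin_cases i <;> fin_cases j
  exacts [h1, h2, h3, h4]

theorem rt_left {a : D} (ha : a ≠ 0) (f : Sp c) (x : D) :
    (R.rho (dg a 1) f).1 x = f.1 (x * a) := by
  rw [R.rt a 1 ha one_ne_zero, map_one, one_mul, inv_one, one_mul]

theorem rt_right {d : D} (hd : d ≠ 0) (f : Sp c) (x : D) :
    (R.rho (dg 1 d) f).1 x = R.om d * f.1 (d⁻¹ * x) := by
  rw [R.rt 1 d one_ne_zero hd, mul_one]

theorem om_ne {a : D} (ha : a ≠ 0) : R.om a ≠ 0 := (map_ne_zero R.om).2 ha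

/-- Right invariance from a type with `M 0 0 = 0`. -/
theorem Ty_right {h : ℤ} (hh : 1 ≤ h) {M : Matrix (Fin 2) (Fin 2) D} {f : Sp c} (hf : Ty R h M f)
    {x u : D} (hu : c.P h u) : f.1 (x * (1 + u)) = c.psi (M 0 0 * u) * f.1 x := by
  have h1 := congrArg (fun g : Sp c => g.1 x) (Ty_dg hh hf hu (c.P_zero h))
  simp only [add_zero, mul_zero] at h1
  rw [rt_left (one_add (P_mono hh hu)).1] at h1
  exact h1

/-- Left translations on a vector with a type. -/
theorem Ty_left {h : ℤ} (hh : 1 ≤ h) {M : Matrix (Fin 2) (Fin 2) D} {f : Sp c} (hf : Ty R h M f)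
    {x u : D} (hu : c.P h u) :
    R.om (1 + u) * f.1 ((1 + u)⁻¹ * x) = c.psi (M 1 1 * u) * f.1 x := by
  have h1 := congrArg (fun g : Sp c => g.1 x) (Ty_dg hh hf (c.P_zero h) hu)
  simp only [add_zero, mul_zero, zero_add] at h1
  rw [rt_right (one_add (P_mono hh hu)).1] at h1
  exact h1

/-- The support of a vector with a type. -/
theorem Ty_supp {h : ℤ} {M : Matrix (Fin 2) (Fin 2) D} {f : Sp c} (hf : Ty R h M f)
    {x : D} (hx : f.1 x ≠ 0) : c.P (1 - h) (x - M 1 0) :=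
  supp_of_nn' (fun _ hb => Ty_nn hf hb) hx

end Pool.Agent.Helper42.QD
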