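import Pool.Agent.Helper42.QD.Lib3

namespace Pool.Agent.Helper42.QD

/-- Claim A. -/
def ST_A : Prop := ∀ (D k : Type) [DivisionRing D] [Field k] [Finite k] (c : VD D k) (R : KM c)
  (h : ℕ) (f : Sp c), f ≠ 0 → Fix R ((h : ℤ) + 1) f → ∀ x : D, x ≠ 0 → c.v x = -h →
  ∀ g : Sp c, g.1 = ind c x 1 → Fix R ((h : ℤ) + 1) g

/-- The central character near level `h`. -/
def ST_OM : Prop := ∀ (D k : Type) [DivisionRing D] [Field k] [Finite k] (c : VD D k) (R : KM c)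
  (h : ℕ) (f : Sp c), 0 < h → f ≠ 0 → Fix R ((h : ℤ) + 1) f → ∃ oh : D, IsOh R h oh

/-- Existence of a vector `ind x 0` with a type. -/
def ST_EXB : Prop := ∀ (D k : Type) [DivisionRing D] [Field k] [Finite k] (c : VD D k) (R : KM c)
  (h : ℕ) (f : Sp c) (oh : D), 0 < h → f ≠ 0 → Fix R ((h : ℤ) + 1) f → IsOh R h oh →
  ∀ x0 : D, x0 ≠ 0 → c.v x0 = -h → ∃ x B : D, c.P (1 - h) (x - x0) ∧ c.P (-h) B ∧
    ∀ g : Sp c, g.1 = ind c x 0 → Ty R h !![0, B; x, oh] g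

/-- Support constraint. -/
def ST_SUP : Prop := ∀ (D k : Type) [DivisionRing D] [Field k] (c : VD D k) (R : KM c)
  (h : ℕ) (oh : D) (M : Matrix (Fin 2) (Fin 2) D) (f : Sp c), 0 < h → IsOh R h oh →
  (∀ i j, c.P (-h) (M i j)) → Ty R h M f → ∀ x, f.1 x ≠ 0 →
  c.P (1 - h) (M 1 1 - oh + x * M 0 0 * x⁻¹)

/-- The constraint on types which occur. -/
def ST_CON : Prop := ∀ (D k : Type) [DivisionRing D] [Field k] (c : VD D k) (R : KM c)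
  (h : ℕ) (oh : D) (M : Matrix (Fin 2) (Fin 2) D) (f : Sp c), 0 < h → IsOh R h oh →
  (∀ i j, c.P (-h) (M i j)) → Ty R h M f → f ≠ 0 → ¬ c.P (1 - h) (M 1 0) →
  c.P (1 - h) (M 1 1 - oh + M 1 0 * M 0 0 * (M 1 0)⁻¹)

/-- Moving the support of an eigenvector with diagonal type into `O`. -/
def ST_DG2 : Prop := ∀ (D k : Type) [DivisionRing D] [Field k] [Finite k] (c : VD D k) (R : KM c)
  (h : ℕ) (oh m0 m1 : D) (f : Sp c), 0 < h → IsOh R h oh → c.P (-h) m0 → c.P (-h) m1 →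
  (∃ z, c.P h z ∧ c.P 1 (m0 * z + z * m0 - oh * z + 1)) → Ty R h !![m0, 0; 0, m1] f → f ≠ 0 →
  ∃ f' : Sp c, f' ≠ 0 ∧ Ty R h !![m0, 0; 0, m1] f' ∧ ∀ x, f'.1 x ≠ 0 → c.P 0 x

/-- Shifting an eigenvector with diagonal type. -/
def ST_DG3 : Prop := ∀ (D k : Type) [DivisionRing D] [Field k] [Finite k] (c : VD D k) (R : KM c)
  (h : ℕ) (oh m0 m1 : D) (f : Sp c), 0 < h → IsOh R h oh → c.P (-h) m0 → c.P (-h) m1 →
  (∃ z, c.P h z ∧ c.P 1 (m0 * z + z * m0 - oh * z + 1)) → Ty R h !![m0, 0; 0, m1] f → f ≠ 0 →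
  (∀ x, f.1 x ≠ 0 → c.P 0 x) →
  ∃ f' : Sp c, f' ≠ 0 ∧ Ty R h !![c.T * m0 * c.T⁻¹, 0; 0, m1] f' ∧
    (∀ x, c.P 0 x → f'.1 x = f.1 (x * c.T)) ∧ ∀ x, f'.1 x ≠ 0 → c.P 0 x

/-- There are no eigenvectors with (regular) diagonal type. -/
def ST_DIAG : Prop := ∀ (D k : Type) [DivisionRing D] [Field k] [Finite k] (c : VD D k) (R : KM c)
  (h : ℕ) (oh m0 m1 : D) (f : Sp c), 0 < h → IsOh R h oh → c.P (-h) m0 → c.P (-h) m1 →
  (∃ z, c.P h z ∧ c.P 1 (m0 * z + z * m0 - oh * z + 1)) → Ty R h !![m0, 0; 0, m1] f → f = 0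

/-- The Iwahori step. -/
def ST_IW : Prop := ∀ (D k : Type) [DivisionRing D] [Field k] [Finite k] (c : VD D k) (h : ℕ),
  0 < h → c.sg ^ (2 * h - 1) ≠ 1 → noK c h → noI c h

/-- The relation at the next level. -/
def ST_F4 : Prop := ∀ (D k : Type) [DivisionRing D] [Field k] [Finite k] (c : VD D k) (R : KM c)
  (h : ℕ) (oh x B : D) (g : Sp c), 2 ≤ h → IsOh R h oh → x ≠ 0 → c.v x = -h → c.P (-h) B →
  g.1 = ind c x 0 → Ty R h !![0, B; x, oh] g → ∀ y, c.P 1 y → c.P (2 - h) (x⁻¹ * y * B * x - B * y)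

/-- Diagonalization of a type. -/
def ST_EIG : Prop := ∀ (D k : Type) [DivisionRing D] [Field k] (c : VD D k) (R : KM c)
  (h : ℕ) (oh x B z1 z2 : D) (f : Sp c), 0 < h → c.P (-h) oh → c.P (-h) x → c.P (-h) B →
  c.P 0 z1 → c.P 0 z2 → ¬ c.P 1 (z1 - z2) → c.P (1 - h) (B + z1 * oh - z1 * x * z1) →
  c.P (1 - h) (B + z2 * oh - z2 * x * z2) → Ty R h !![0, B; x, oh] f →
  ∃ g : G2 D, Ty R h !![z1 * x, 0; 0, z2 * x] (R.rho g f)

/-- Twisting. -/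
def ST_TW : Prop := ∀ (D k : Type) [DivisionRing D] [Field k] [Finite k] (c : VD D k) (R : KM c)
  (h : ℕ) (e : D) (lam : G2 D →* ℂˣ), 0 < h → c.P (-h) e → (∀ b, lam (nn b) = 1) →
  (∀ g, KK c h g → (lam g : ℂ) = c.psi (e * ((g.val - 1) 0 0 + (g.val - 1) 1 1))) →
  ∃ (R' : KM c) (Phi : Sp c → Sp c), (∀ f, f ≠ 0 → Phi f ≠ 0) ∧
    ∀ (M : Matrix (Fin 2) (Fin 2) D) (f : Sp c), Ty R h M f →
      Ty R' h !![M 0 0 + e, M 0 1; M 1 0, M 1 1 + e] (Phi f)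

/-- Quadratic equations over the fixed field of an automorphism of even order are solvable. -/
def ST_ALK2 : Prop := ∀ (E : Type) [Field E] [Finite E] (s : E ≃+* E), Even (orderOf s) →
  ∀ w b : E, s w = w → s b = b → ∃ r : E, r * r = w * r + b

/-- Algebra of the case `sg ^ h ≠ 1`. -/
def ST_ALK1 : Prop := ∀ (E : Type) [Field E] [Finite E] (t : E ≃+* E), t ≠ 1 →
  ∀ x b : E, x ≠ 0 → b ≠ 0 → (∀ a : E, b ≠ t a * x * a → t (t a) * t x * b = t b * x * a) →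
  (∀ a, t (t a) = a) ∧ (∃ z z', z ≠ z' ∧ t z * x * z = b ∧ t z' * x * z' = b) ∧
    ∀ a : E, a ≠ 0 → ∃ z, t a * z + t z * a + 1 = 0

/-- The case `sg ^ h ≠ 1`, first part. -/
def ST_C1A : Prop := ∀ (D k : Type) [DivisionRing D] [Field k] [Finite k] (c : VD D k) (R : KM c)
  (h : ℕ) (f : Sp c) (oh : D), 0 < h → noI c h → c.sg ^ h ≠ 1 → f ≠ 0 → Fix R ((h : ℤ) + 1) f →
  IsOh R h oh → ∃ (x B : D) (g : Sp c), c.P (1 - h) oh ∧ x ≠ 0 ∧ c.v x = -h ∧ c.P (-h) B ∧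
    ¬ c.P (1 - h) B ∧ g ≠ 0 ∧ Ty R h !![0, B; x, oh] g ∧
    ∀ b, c.P 0 b → ¬ c.P (1 - h) (B - b * x * b) → c.P (1 - 2 * h) (b * x * B - B * x * b)

/-- The case `sg ^ h ≠ 1`. -/
def ST_C1 : Prop := ∀ (D k : Type) [DivisionRing D] [Field k] [Finite k] (c : VD D k)
  (h : ℕ), 0 < h → noI c h → c.sg ^ h ≠ 1 → noK c ((h : ℤ) + 1)

/-- The case `sg ^ h = 1`, first part. -/
def ST_C2A : Prop := ∀ (D k : Type) [DivisionRing D] [Field k] [Finite k] (c : VD D k) (R : KM c)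
  (h : ℕ) (f : Sp c) (oh : D), 2 ≤ h → c.sg ^ h = 1 → f ≠ 0 → Fix R ((h : ℤ) + 1) f →
  IsOh R h oh → ∃ (x B : D) (g : Sp c), c.P (1 - h) (x - c.T ^ (-(h : ℤ))) ∧ c.P (-h) B ∧ g ≠ 0 ∧
    Ty R h !![0, B; x, oh] g ∧ c.sg (c.r (c.T ^ (h : ℤ) * B)) = c.r (c.T ^ (h : ℤ) * B) ∧
    c.sg (c.r (c.T ^ (h : ℤ) * oh)) = c.r (c.T ^ (h : ℤ) * oh)

/-- The case `sg ^ h = 1`. -/
def ST_C2 : Prop := ∀ (D k : Type) [DivisionRing D] [Field k] [Finite k] (c : VD D k)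
  (h : ℕ), 2 ≤ h → noI c h → c.sg ^ h = 1 → Even (orderOf c.sg) → TWC c → noK c ((h : ℤ) + 1)

/-- Depth zero: the support. -/
def ST_DZ0 : Prop := ∀ (D k : Type) [DivisionRing D] [Field k] [Finite k] (c : VD D k) (R : KM c)
  (f : Sp c), Fix R 1 f → ∀ x, f.1 x ≠ 0 → c.v x = 0

/-- Depth zero. -/
def ST_DZ : Prop := ∀ (D k : Type) [DivisionRing D] [Field k] [Finite k] (c : VD D k),
  Even (orderOf c.sg) → noK c 1

/-- The abstract theorem. -/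
def ST_ABS : Prop := ∀ (D k : Type) [DivisionRing D] [Field k] [Finite k] (c : VD D k),
  Even (orderOf c.sg) → TWC c → KM c → False

/-! The finite field theorem. -/

/-- The map on `GL_2` induced by a ring automorphism. -/
def gmap {E : Type} [Field E] (t : E ≃+* E) : G2 E →* G2 E :=
  Units.map (RingHom.mapMatrix (m := Fin 2) t.toRingHom).toMonoidHom

/-- The automorphism of the group of units. -/
def tu {E : Type} [Field E] (t : E ≃+* E) : Eˣ →* Eˣ := Units.map t.toRingHom.toMonoidHom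

structure FD (E : Type) [Field E] [Fintype E] [DecidableEq E] where
  tau : E ≃+* E
  tau2 : ∀ x, tau (tau x) = x
  taun : ∃ x, tau x ≠ x
  psi : AddChar E ℂ
  psin : psi ≠ 1
  psit : ∀ x, psi (tau x) = psi x
  om : Eˣ →* ℂˣ
  rho : Representation ℂ (G2 E) (Eˣ → ℂ)
  rn : ∀ (b : E) (f : Eˣ → ℂ) (x : Eˣ), rho (nn b) f x = psi (x * b) * f x
  rt : ∀ (a d : Eˣ) (f : Eˣ → ℂ) (x : Eˣ), rho (dg (a : E) (d : E)) f x = om d * f (d⁻¹ * x * a)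
  rF : ∀ (g : G2 E) (f : Eˣ → ℂ) (x : Eˣ), rho (gmap tau g) (fun y => f (tu tau y)) x =
    rho g f (tu tau x)

/-- Facts on a quadratic extension of finite fields. -/
def ST_FN : Prop := ∀ (E : Type) [Field E] [Fintype E] [DecidableEq E] (t : E ≃+* E),
  (∀ x, t (t x) = x) → (∃ x, t x ≠ x) → ∃ a : ℕ, 0 < a ∧
    (Finset.univ.filter fun x : Eˣ => tu t x = x).card = a ∧
    Fintype.card E = (a + 1) ^ 2 ∧ Fintype.card Eˣ = a * (a + 2) ∧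
    (∀ z : Eˣ, tu t z = z → (Finset.univ.filter fun y : Eˣ => y * tu t y = z).card = a + 2) ∧
    (∀ y : Eˣ, y * tu t y = 1 → ∃ e : Eˣ, y = e * (tu t e)⁻¹)

/-- The matrix of `ww`. -/
def ST_FJ : Prop := ∀ (E : Type) [Field E] [Fintype E] [DecidableEq E] (c : FD E),
  ∃ j : Eˣ → ℂ, (∀ f y, c.rho (ww E) f y = ∑ x, j (y * x) * ((c.om x : ℂ))⁻¹ * f x) ∧
    (∀ x, j (tu c.tau x) = j x) ∧
    (∀ x x', ∑ y, j (x * y) * (starRingEnd ℂ) (j (x' * y)) = if x = x' then 1 else 0) ∧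
    (∀ x, c.om (tu c.tau x) = c.om x) ∧ ∀ x, ‖(c.om x : ℂ)‖ = 1

/-- The operator `f ↦ f ∘ tau`. -/
def Fop {E : Type} [Field E] (t : E ≃+* E) : (Eˣ → ℂ) →ₗ[ℂ] (Eˣ → ℂ) where
  toFun f := fun x => f (tu t x)
  map_add' _ _ := rfl
  map_smul' _ _ := rfl

/-- The twisted trace. -/
noncomputable def ttr {E : Type} [Field E] [Fintype E] [DecidableEq E] (c : FD E) (g : G2 E) : ℂ :=
  LinearMap.trace ℂ (Eˣ → ℂ) (c.rho g ∘ₗ Fop c.tau)

/-- The twisted trace of `n(b) t(t, 1) w`. -/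
noncomputable def TT {E : Type} [Field E] [Fintype E] [DecidableEq E] (c : FD E) (j : Eˣ → ℂ)
    (b : E) (t : Eˣ) : ℂ :=
  ∑ y : Eˣ, c.psi (y * b) * j (y * tu c.tau y * t) * ((c.om y : ℂ))⁻¹

/-- Computation of twisted traces. -/
def ST_FT : Prop := ∀ (E : Type) [Field E] [Fintype E] [DecidableEq E] (c : FD E) (j : Eˣ → ℂ),
  (∀ f y, c.rho (ww E) f y = ∑ x, j (y * x) * ((c.om x : ℂ))⁻¹ * f x) →
  (∀ x, c.om (tu c.tau x) = c.om x) →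
  (∀ (b : E) (t : Eˣ), ttr c (nn b * dg (t : E) 1 * ww E) = TT c j b t) ∧
  (∀ z : Eˣ, ttr c (dg (z : E) (z : E)) =
    c.om z * ((Finset.univ.filter fun x : Eˣ => tu c.tau x = x).card : ℂ)) ∧
  ∀ g h : G2 E, ttr c (h * g * (gmap c.tau h)⁻¹) = ttr c g

/-- Explicit twisted conjugations. -/
def ST_FE : Prop := ∀ (E : Type) [Field E] (t : E ≃+* E), (∀ x, t (t x) = x) →
  (∀ (b : E) (u s : E), b ≠ 0 → u ≠ 0 → s ≠ 0 → s * t s = u * t u → s + t s = b * t b + u + t u →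
    s ≠ t s → ∃ h : G2 E, h * (nn b * dg u 1 * ww E) = (dg s 1 * ww E) * gmap t h) ∧
  ∀ (u z e : E), u ≠ 0 → z * t z = u → t u = u → t e ≠ e →
    ∃ h : G2 E, h * (dg u 1 * ww E) = dg z z * gmap t h

/-- Mean squares. -/
def ST_FP1 : Prop := ∀ (E : Type) [Field E] [Fintype E] [DecidableEq E] (c : FD E) (j : Eˣ → ℂ),
  (∀ x x', ∑ y, j (x * y) * (starRingEnd ℂ) (j (x' * y)) = if x = x' then 1 else 0) →
  (∀ x, ‖(c.om x : ℂ)‖ = 1) →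
  ∑ t : Eˣ, ∑ b : E, ‖TT c j b t‖ ^ 2 = (Fintype.card E : ℝ) * Fintype.card Eˣ

/-- Mean squares, `b = 0`. -/
def ST_FP2 : Prop := ∀ (E : Type) [Field E] [Fintype E] [DecidableEq E] (c : FD E) (j : Eˣ → ℂ)
  (a : ℕ),
  (∀ x x', ∑ y, j (x * y) * (starRingEnd ℂ) (j (x' * y)) = if x = x' then 1 else 0) →
  (∀ x, c.om (tu c.tau x) = c.om x) → (∀ x, ‖(c.om x : ℂ)‖ = 1) →
  (∀ z : Eˣ, tu c.tau z = z → (Finset.univ.filter fun y : Eˣ => y * tu c.tau y = z).card = a + 2) →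
  (∀ y : Eˣ, y * tu c.tau y = 1 → ∃ e : Eˣ, y = e * (tu c.tau e)⁻¹) →
  ∑ t : Eˣ, ‖TT c j 0 t‖ ^ 2 = (Fintype.card Eˣ : ℝ) * (a + 2)

/-- The counting argument. -/
def ST_FP3 : Prop := ∀ (E : Type) [Field E] [Fintype E] [DecidableEq E] (t : E ≃+* E) (a : ℕ)
  (S : E → Eˣ → ℝ), (∀ x, t (t x) = x) → 0 < a →
  (Finset.univ.filter fun x : Eˣ => tu t x = x).card = a →
  Fintype.card E = (a + 1) ^ 2 → Fintype.card Eˣ = a * (a + 2) →
  (∀ z : Eˣ, tu t z = z → (Finset.univ.filter fun y : Eˣ => y * tu t y = z).card = a + 2) →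
  (∀ b u, 0 ≤ S b u) → ∑ u : Eˣ, ∑ b : E, S b u = (Fintype.card E : ℝ) * Fintype.card Eˣ →
  ∑ u : Eˣ, S 0 u = (Fintype.card Eˣ : ℝ) * (a + 2) →
  (∀ u : Eˣ, tu t u = u → S 0 u = (a : ℝ) ^ 2) →
  (∀ (b : E) (u s : Eˣ), b ≠ 0 → s * tu t s = u * tu t u → (s : E) + t s = b * t b + u + t u →
    (s : E) ≠ t s → S b u = S 0 s) → False

/-- The finite field theorem. -/
def ST_FF : Prop := ∀ (E : Type) [Field E] [Fintype E] [DecidableEq E], FD E → False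

/-! From representations to Kirillov models. -/

/-- Completeness. -/
def Cpl {D k : Type} [DivisionRing D] [Field k] (c : VD D k) : Prop :=
  ∀ a : ℕ → D, (∀ n : ℕ, c.P n (a (n + 1) - a n)) → ∃ x, ∀ n : ℕ, c.P n (x - a n)

/-- The Whittaker functional. -/
def ST_K1 : Prop := ∀ (D k : Type) [DivisionRing D] [Field k] [Finite k] (c : VD D k) (V : Type)
  [AddCommGroup V] [Module ℂ V] (rho : Representation ℂ (G2 D) V),
  Module.finrank ℂ (V ⧸ tsp rho c.psi) = 1 →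
  ∃ (l : V →ₗ[ℂ] ℂ) (om : D →*₀ ℂ), (∃ v, l v ≠ 0) ∧ (∀ v, l v = 0 ↔ v ∈ tsp rho c.psi) ∧
    (∀ x v, l (rho (nn x) v) = c.psi x * l v) ∧
    ∀ a, a ≠ 0 → ∀ v, l (rho (dg a a) v) = om a * l v

/-- Injectivity of the Kirillov map. -/
def ST_K2 : Prop := ∀ (D k : Type) [DivisionRing D] [Field k] [Finite k] (c : VD D k) (V : Type)
  [AddCommGroup V] [Module ℂ V] (rho : Representation ℂ (G2 D) V) (l : V →ₗ[ℂ] ℂ), Cpl c →
  (∀ v : V, ∃ m : ℕ, 0 < m ∧ ∀ g, KK c m g → rho g v = v) →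
  tsp rho (fun _ => 1) = ⊤ → (∀ v, l v = 0 ↔ v ∈ tsp rho c.psi) →
  ∀ v : V, (∀ x, x ≠ 0 → l (rho (dg x 1) v) = 0) → v = 0

open Classical in
/-- The Kirillov map has values in `Sp c`. -/
def ST_K3 : Prop := ∀ (D k : Type) [DivisionRing D] [Field k] [Finite k] (c : VD D k) (V : Type)
  [AddCommGroup V] [Module ℂ V] (rho : Representation ℂ (G2 D) V) (l : V →ₗ[ℂ] ℂ),
  (∀ v : V, ∃ m : ℕ, 0 < m ∧ ∀ g, KK c m g → rho g v = v) →
  tsp rho (fun _ => 1) = ⊤ → (∀ x v, l (rho (nn x) v) = c.psi x * l v) →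
  ∀ v : V, IsS c (fun x => if x = 0 then 0 else l (rho (dg x 1) v))

/-- A non-zero subspace of `Sp c` stable under the Borel subgroup is everything. -/
def ST_K4 : Prop := ∀ (D k : Type) [DivisionRing D] [Field k] [Finite k] (c : VD D k)
  (om : D →*₀ ℂ) (W : Submodule ℂ (Sp c)), (∃ f ∈ W, f ≠ 0) →
  (∀ (b : D) (f g : Sp c), f ∈ W → (∀ x, g.1 x = c.psi (x * b) * f.1 x) → g ∈ W) →
  (∀ (a d : D) (f g : Sp c), a ≠ 0 → d ≠ 0 → f ∈ W → (∀ x, g.1 x = om d * f.1 (d⁻¹ * x * a)) →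
    g ∈ W) → W = ⊤

/-- Existence of the Kirillov model. -/
def ST_KIR : Prop := ∀ (D k : Type) [DivisionRing D] [Field k] [Finite k] (c : VD D k) (V : Type)
  [AddCommGroup V] [Module ℂ V] (rho : Representation ℂ (G2 D) V), Cpl c →
  (∀ v : V, ∃ m : ℕ, 0 < m ∧ ∀ g, KK c m g → rho g v = v) →
  tsp rho (fun _ => 1) = ⊤ → Module.finrank ℂ (V ⧸ tsp rho c.psi) = 1 → Nonempty (KM c)

end Pool.Agent.Helper42.QD
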